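import Mathlib

set_option autoImplicit false

/-! Block-sensitivity type bound on the Boolean cube: a function `h` on subsets of `κ`
which is a combination of functions of at most `d` coordinates, takes values in `[0,1]`,
vanishes at `∅` and equals `1` at all singletons can exist only for `|κ| ≤ d^2`. -/

namespace Pool.Agent.Lib_helper10.LogRank

open Finset Polynomial

/-- Markov-type inequality at the end point (from Chebyshev extremality in Mathlib). -/
theorem deriv_zero_le {d : ℕ} {q : ℝ[X]} (hq : q.natDegree ≤ d)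
    (hb : ∀ t ∈ Set.Icc (0:ℝ) 1, 0 ≤ q.eval t ∧ q.eval t ≤ 1) :
    (derivative q).eval 0 ≤ (d : ℝ) ^ 2 := by
  set ℓ : ℝ[X] := C (1/2 : ℝ) - C (1/2 : ℝ) * X with hℓ
  set P : ℝ[X] := 1 - C 2 * q.comp ℓ with hP
  have hℓdeg : ℓ.natDegree ≤ 1 := by
    rw [hℓ]
    refine (natDegree_sub_le _ _).trans ?_
    simp only [natDegree_C, max_le_iff]
    refine ⟨by norm_num, (natDegree_C_mul_le _ _).trans natDegree_X_le⟩
  have hdeg : P.degree ≤ d := by
    rw [← natDegree_le_iff_degree_le, hP]
    refine (natDegree_sub_le _ _).trans ?_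
    simp only [natDegree_one, max_le_iff]
    refine ⟨Nat.zero_le _, (natDegree_C_mul_le _ _).trans ?_⟩
    rw [natDegree_comp]
    calc q.natDegree * ℓ.natDegree ≤ d * 1 := Nat.mul_le_mul hq hℓdeg
      _ = d := by ring
  have hbnd : ∀ x ∈ Set.Icc (-1:ℝ) 1, |P.eval x| ≤ 1 := by
    intro x hx
    have h1 : ℓ.eval x ∈ Set.Icc (0:ℝ) 1 := by
      simp only [hℓ, eval_sub, eval_C, eval_mul, eval_X, Set.mem_Icc] at *
      constructor <;> linarith [hx.1, hx.2]
    have h2 := hb _ h1
    have h3 : P.eval x = 1 - 2 * q.eval (ℓ.eval x) := by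
      simp [hP, eval_comp]
    rw [h3, abs_le]
    constructor <;> linarith [h2.1, h2.2]
  have key := Polynomial.Chebyshev.eval_iterate_derivative_le_of_forall_abs_le_one (k := 1)
    (x := 1) le_rfl hdeg hbnd
  simp only [Function.iterate_one] at key
  have hT : (derivative (Polynomial.Chebyshev.T ℝ (d:ℤ))).eval 1 = (d:ℝ)^2 := by
    rw [Polynomial.Chebyshev.derivative_T_eval_one]; push_cast; ring
  rw [hT] at key
  have hPd : (derivative P).eval 1 = (derivative q).eval 0 := by
    simp [hP, hℓ, derivative_comp, eval_comp]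
  rw [← hPd]; exact key

variable {κ : Type*} [Fintype κ] [DecidableEq κ]

/-- the polynomial `ρ ↦ E_ρ h` -/
noncomputable def cubePoly (h : Finset κ → ℝ) : ℝ[X] :=
  ∑ V : Finset κ, C (h V) * (X ^ V.card * (1 - X) ^ (Vᶜ.card))

theorem cubePoly_add (g h : Finset κ → ℝ) : cubePoly (g + h) = cubePoly g + cubePoly h := by
  simp [cubePoly, add_mul, Finset.sum_add_distrib]

theorem cubePoly_smul (c : ℝ) (g : Finset κ → ℝ) : cubePoly (c • g) = C c * cubePoly g := by
  simp [cubePoly, Finset.mul_sum, mul_assoc]

theorem cubePoly_zero : cubePoly (0 : Finset κ → ℝ) = 0 := by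
  simp [cubePoly]

theorem cubePoly_junta (g : Finset κ → ℝ) (T : Finset κ) (hg : ∀ V, g V = g (V ∩ T)) :
    cubePoly g = ∑ U ∈ T.powerset, C (g U) * (X ^ U.card * (1 - X) ^ ((T \ U).card)) := by
  have h1 : (∑ W ∈ Tᶜ.powerset, (X:ℝ[X]) ^ W.card * (1 - X) ^ ((Tᶜ \ W).card)) = 1 := by
    have := Finset.sum_pow_mul_eq_add_pow (X:ℝ[X]) (1 - X) Tᶜ
    rw [add_sub_cancel, one_pow] at this
    refine Eq.trans (Finset.sum_congr rfl fun W hW => ?_) this
    rw [Finset.card_sdiff_of_subset (Finset.mem_powerset.1 hW)]
  calc cubePoly g = ∑ p ∈ T.powerset ×ˢ Tᶜ.powerset,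
        (C (g p.1) * (X ^ p.1.card * (1 - X) ^ ((T \ p.1).card))) *
          ((X:ℝ[X]) ^ p.2.card * (1 - X) ^ ((Tᶜ \ p.2).card)) := by
        rw [cubePoly]
        refine (Finset.sum_nbij' (fun p => p.1 ∪ p.2) (fun V => (V ∩ T, V \ T)) ?_ ?_ ?_ ?_ ?_).symm
        · intro p _; simp
        · intro V _
          simp only [mem_product, mem_powerset]
          refine ⟨Finset.inter_subset_right, ?_⟩
          intro x hx; simp only [mem_sdiff, mem_compl] at *; exact hx.2
        · intro p hp
          simp only [mem_product, mem_powerset] at hp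
          ext x
          · simp only [mem_inter, mem_union]
            constructor
            · rintro ⟨h | h, h'⟩
              · exact h
              · exact absurd h' (Finset.mem_compl.1 (hp.2 h))
            · intro h; exact ⟨Or.inl h, hp.1 h⟩
          · simp only [mem_sdiff, mem_union]
            constructor
            · rintro ⟨h | h, h'⟩
              · exact absurd (hp.1 h) h'
              · exact h
            · intro h; exact ⟨Or.inr h, Finset.mem_compl.1 (hp.2 h)⟩
        · intro V _
          ext x; simp only [mem_union, mem_inter, mem_sdiff]; tauto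
        · intro p hp
          simp only [mem_product, mem_powerset] at hp
          have hd : Disjoint p.1 p.2 := by
            rw [Finset.disjoint_left]
            intro x hx hx'; exact Finset.mem_compl.1 (hp.2 hx') (hp.1 hx)
          have e1 : g (p.1 ∪ p.2) = g p.1 := by
            rw [hg]
            congr 1
            ext x; simp only [mem_inter, mem_union]
            constructor
            · rintro ⟨h | h, h'⟩
              · exact h
              · exact absurd h' (Finset.mem_compl.1 (hp.2 h))
            · intro h; exact ⟨Or.inl h, hp.1 h⟩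
          have e2 : (p.1 ∪ p.2).card = p.1.card + p.2.card := Finset.card_union_of_disjoint hd
          have e3 : (p.1 ∪ p.2)ᶜ.card = (T \ p.1).card + (Tᶜ \ p.2).card := by
            rw [← Finset.card_union_of_disjoint]
            · congr 1
              ext x; simp only [mem_compl, mem_union, mem_sdiff]
              constructor
              · intro h; by_cases hx : x ∈ T <;> tauto
              · rintro (⟨h, h'⟩ | ⟨h, h'⟩)
                · rintro (h1 | h1)
                  · exact h' h1
                  · exact Finset.mem_compl.1 (hp.2 h1) h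
                · rintro (h1 | h1)
                  · exact h (hp.1 h1)
                  · exact h' h1
            · rw [Finset.disjoint_left]
              intro x hx hx'
              simp only [mem_sdiff, mem_compl] at hx hx'
              exact hx'.1 hx.1
          rw [e1, e2, e3, pow_add, pow_add]
          ring
    _ = ∑ U ∈ T.powerset, C (g U) * (X ^ U.card * (1 - X) ^ ((T \ U).card)) := by
        rw [Finset.sum_product]
        refine Finset.sum_congr rfl fun U _ => ?_
        simp only
        rw [← Finset.mul_sum, h1, mul_one]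

theorem natDegree_one_sub_X : ((1 : ℝ[X]) - X).natDegree ≤ 1 := by
  refine (natDegree_sub_le _ _).trans ?_
  simp

theorem cubePoly_natDegree_junta (g : Finset κ → ℝ) (T : Finset κ) (hg : ∀ V, g V = g (V ∩ T)) :
    (cubePoly g).natDegree ≤ T.card := by
  rw [cubePoly_junta g T hg]
  refine natDegree_sum_le_of_forall_le _ _ fun U hU => ?_
  refine (natDegree_C_mul_le _ _).trans (natDegree_mul_le.trans ?_)
  have h2 : ((1 - X : ℝ[X]) ^ ((T \ U).card)).natDegree ≤ (T \ U).card := by
    refine natDegree_pow_le.trans ?_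
    calc (T \ U).card * (1 - X : ℝ[X]).natDegree ≤ (T \ U).card * 1 :=
          Nat.mul_le_mul le_rfl natDegree_one_sub_X
      _ = _ := by ring
  have h1 : ((X:ℝ[X]) ^ U.card).natDegree ≤ U.card := natDegree_X_pow_le _
  have h3 : U.card + (T \ U).card = T.card := by
    rw [add_comm]; exact Finset.card_sdiff_add_card_eq_card (Finset.mem_powerset.1 hU)
  omega

/-- functions of at most `d` coordinates on the cube of subsets -/
def cubeLow (κ : Type*) [DecidableEq κ] (d : ℕ) : Submodule ℝ (Finset κ → ℝ) :=
  Submodule.span ℝ {g | ∃ T : Finset κ, T.card ≤ d ∧ ∀ V, g V = g (V ∩ T)}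

theorem cubePoly_natDegree {d : ℕ} {h : Finset κ → ℝ} (hh : h ∈ cubeLow κ d) :
    (cubePoly h).natDegree ≤ d := by
  refine Submodule.span_induction (p := fun h _ => (cubePoly h).natDegree ≤ d) ?_ ?_ ?_ ?_ hh
  · rintro g ⟨T, hT, hg⟩
    exact (cubePoly_natDegree_junta g T hg).trans hT
  · rw [cubePoly_zero]; simp
  · intro a b _ _ ha hb
    rw [cubePoly_add]
    exact (natDegree_add_le _ _).trans (max_le ha hb)
  · intro c a _ ha
    rw [cubePoly_smul]
    exact (natDegree_C_mul_le _ _).trans ha

theorem cubePoly_eval_mem {h : Finset κ → ℝ} (hb : ∀ V, 0 ≤ h V ∧ h V ≤ 1) :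
    ∀ t ∈ Set.Icc (0:ℝ) 1, 0 ≤ (cubePoly h).eval t ∧ (cubePoly h).eval t ≤ 1 := by
  intro t ht
  have e : (cubePoly h).eval t = ∑ V : Finset κ, h V * (t ^ V.card * (1 - t) ^ (Vᶜ.card)) := by
    simp [cubePoly, eval_finsetSum]
  have hw : ∀ V : Finset κ, 0 ≤ t ^ V.card * (1 - t) ^ (Vᶜ.card) := fun V =>
    mul_nonneg (pow_nonneg ht.1 _) (pow_nonneg (by linarith [ht.2]) _)
  have hs : ∑ V : Finset κ, t ^ V.card * (1 - t) ^ (Vᶜ.card) = 1 := by
    have := Fintype.sum_pow_mul_eq_add_pow κ t (1 - t)
    rw [add_sub_cancel, one_pow] at this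
    refine Eq.trans (Finset.sum_congr rfl fun V _ => ?_) this
    rw [Finset.card_compl]
  rw [e]
  constructor
  · exact Finset.sum_nonneg fun V _ => mul_nonneg (hb V).1 (hw V)
  · calc ∑ V : Finset κ, h V * (t ^ V.card * (1 - t) ^ (Vᶜ.card))
        ≤ ∑ V : Finset κ, 1 * (t ^ V.card * (1 - t) ^ (Vᶜ.card)) :=
          Finset.sum_le_sum fun V _ => mul_le_mul_of_nonneg_right (hb V).2 (hw V)
      _ = 1 := by simp [hs]

theorem cubePoly_deriv {h : Finset κ → ℝ} (h0 : h ∅ = 0) (h1 : ∀ j, h {j} = 1) :
    (derivative (cubePoly h)).eval 0 = Fintype.card κ := by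
  have e : (derivative (cubePoly h)).eval 0
      = ∑ V : Finset κ, if V.card = 1 then (1:ℝ) else 0 := by
    rw [cubePoly, derivative_sum, eval_finsetSum]
    refine Finset.sum_congr rfl fun V _ => ?_
    rw [derivative_mul, derivative_C, zero_mul, zero_add, derivative_mul, eval_mul, eval_C,
      eval_add, eval_mul, eval_mul, derivative_X_pow]
    rcases Nat.lt_trichotomy V.card 1 with hc | hc | hc
    · have hV : V = ∅ := by
        rw [← Finset.card_eq_zero]; omega
      subst hV
      simp [h0]
    · obtain ⟨j, rfl⟩ := Finset.card_eq_one.1 hc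
      simp [h1]
    · have hne : V.card ≠ 1 := by omega
      have hne0 : V.card ≠ 0 := by omega
      have hne1 : V.card - 1 ≠ 0 := by omega
      simp [hne, hne0, hne1]
  rw [e, Finset.sum_ite, Finset.sum_const_zero, add_zero, Finset.sum_const, nsmul_eq_mul, mul_one]
  have : (Finset.univ.filter fun V : Finset κ => V.card = 1) = Finset.powersetCard 1 Finset.univ := by
    ext V; simp [Finset.mem_powersetCard]
  rw [this, Finset.card_powersetCard, Nat.choose_one_right, Finset.card_univ]

theorem card_le_sq_of_cubeLow {d : ℕ} {h : Finset κ → ℝ} (hh : h ∈ cubeLow κ d)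
    (hb : ∀ V, 0 ≤ h V ∧ h V ≤ 1) (h0 : h ∅ = 0) (h1 : ∀ j, h {j} = 1) :
    Fintype.card κ ≤ d ^ 2 := by
  have := deriv_zero_le (cubePoly_natDegree hh) (cubePoly_eval_mem hb)
  rw [cubePoly_deriv h0 h1] at this
  exact_mod_cast this

end Pool.Agent.Lib_helper10.LogRank
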