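import Mathlib

set_option autoImplicit false

/-! Definitions used in the statement: deterministic two-party protocols and the
real communication matrix of a Boolean function. -/

namespace Pool.Agent.Lib_helper10.LogRank

/-- A deterministic two-party protocol for inputs `x : X` (Alice) and `y : Y` (Bob): a binary tree
in which each internal node is owned by one player, the bit sent at the node depends only on
the input of that player (and on the node, i.e. on the bits sent so far), and each leaf carries
the output. -/
inductive Protocol (X Y : Type) : Type
  | leaf (out : Bool) : Protocol X Y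
  | alice (bit : X → Bool) (t₀ t₁ : Protocol X Y) : Protocol X Y
  | bob (bit : Y → Bool) (t₀ t₁ : Protocol X Y) : Protocol X Y

namespace Protocol

/-- The output of the protocol on the input `(x, y)`. -/
def eval {X Y : Type} : Protocol X Y → X → Y → Bool
  | leaf b, _, _ => b
  | alice s t₀ t₁, x, y => if s x then t₁.eval x y else t₀.eval x y
  | bob s t₀ t₁, x, y => if s y then t₁.eval x y else t₀.eval x y

/-- The cost of the protocol: the depth of the tree, i.e. the maximal number of bits exchanged. -/
def cost {X Y : Type} : Protocol X Y → ℕ
  | leaf _ => 0
  | alice _ t₀ t₁ => max t₀.cost t₁.cost + 1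
  | bob _ t₀ t₁ => max t₀.cost t₁.cost + 1

end Protocol

/-- The rank over `ℝ` of the communication matrix `[F(x,y)]` of `F : X × Y → {0,1}`. -/
noncomputable def realRank {X Y : Type} [Fintype Y] (F : X → Y → Bool) : ℕ :=
  (Matrix.of fun (x : X) (y : Y) => if F x y then (1 : ℝ) else 0).rank

end Pool.Agent.Lib_helper10.LogRank
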