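import Mathlib
import Pool.Agent.Lib_helper10.LogRank.Cube

set_option autoImplicit false
set_option linter.unusedSectionVars false

/-! Low-degree functions on product sets and the hitting set lemma. -/

namespace Pool.Agent.Lib_helper10.LogRank

open Finset

variable {ι : Type*} [Fintype ι] [DecidableEq ι] {A : ι → Type*}

/-- functions depending only on the coordinates in `S` -/
def junta (A : ι → Type*) (S : Finset ι) : Submodule ℝ ((∀ i, A i) → ℝ) where
  carrier := {g | ∀ x y, (∀ i ∈ S, x i = y i) → g x = g y}
  add_mem' := by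
    intro a b ha hb x y h
    simp only [Pi.add_apply]
    rw [ha x y h, hb x y h]
  zero_mem' := by intro x y _; rfl
  smul_mem' := by
    intro c a ha x y h
    simp only [Pi.smul_apply]
    rw [ha x y h]

theorem mem_junta {S : Finset ι} {g : (∀ i, A i) → ℝ} :
    g ∈ junta A S ↔ ∀ x y, (∀ i ∈ S, x i = y i) → g x = g y := Iff.rfl

theorem junta_mono {S T : Finset ι} (h : S ⊆ T) : junta A S ≤ junta A T :=
  fun _ hg x y hxy => hg x y fun i hi => hxy i (h hi)

/-- the span of the functions depending on at most `d` coordinates -/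
def lowDeg (A : ι → Type*) (d : ℕ) : Submodule ℝ ((∀ i, A i) → ℝ) :=
  ⨆ (S : Finset ι) (_ : S.card ≤ d), junta A S

theorem junta_le_lowDeg {S : Finset ι} {d : ℕ} (h : S.card ≤ d) : junta A S ≤ lowDeg A d :=
  le_iSup₂_of_le S h le_rfl

theorem lowDeg_mono {d e : ℕ} (h : d ≤ e) : lowDeg A d ≤ lowDeg A e :=
  iSup₂_le fun _ hS => junta_le_lowDeg (hS.trans h)

theorem const_mem_junta (c : ℝ) : (fun _ => c) ∈ junta A (∅ : Finset ι) := by
  intro x y _; rfl

theorem const_mem_lowDeg (c : ℝ) (d : ℕ) : (fun _ => c) ∈ lowDeg A d :=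
  junta_le_lowDeg (by simp) (const_mem_junta c)

theorem lowDeg_zero_const {f : (∀ i, A i) → ℝ} (hf : f ∈ lowDeg A 0) (x y : ∀ i, A i) :
    f x = f y := by
  have : lowDeg A 0 ≤ junta A ∅ := by
    refine iSup₂_le fun S hS => ?_
    have : S = ∅ := by rw [← Finset.card_eq_zero]; omega
    rw [this]
  exact this hf x y (by simp)

/-- restriction operator: coordinates in `U` are set according to `a` -/
def restr (U : Finset ι) (a : ∀ i, A i) : ((∀ i, A i) → ℝ) →ₗ[ℝ] ((∀ i, A i) → ℝ) where
  toFun f z := f (U.piecewise a z)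
  map_add' _ _ := rfl
  map_smul' _ _ := rfl

theorem restr_junta (U S : Finset ι) (a : ∀ i, A i) {g : (∀ i, A i) → ℝ} (hg : g ∈ junta A S) :
    restr U a g ∈ junta A (S \ U) := by
  intro x y h
  apply hg
  intro i hi
  by_cases hU : i ∈ U
  · simp [Finset.piecewise, hU]
  · simp only [Finset.piecewise, hU, if_false]
    exact h i (by simp [hi, hU])

theorem restr_lowDeg (U : Finset ι) (a : ∀ i, A i) (d : ℕ) :
    lowDeg A d ≤ (lowDeg A d).comap (restr U a) := by
  refine iSup₂_le fun S hS g hg => ?_
  refine junta_le_lowDeg ?_ (restr_junta U S a hg)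
  exact (Finset.card_le_card Finset.sdiff_subset).trans hS

/-- outer restriction operator: coordinates outside `U` are set according to `x` -/
def restr' (U : Finset ι) (x : ∀ i, A i) : ((∀ i, A i) → ℝ) →ₗ[ℝ] ((∀ i, A i) → ℝ) where
  toFun f z := f (U.piecewise z x)
  map_add' _ _ := rfl
  map_smul' _ _ := rfl

theorem restr'_junta (U S : Finset ι) (x : ∀ i, A i) {g : (∀ i, A i) → ℝ} (hg : g ∈ junta A S) :
    restr' U x g ∈ junta A (S ∩ U) := by
  intro y z h
  apply hg
  intro i hi
  by_cases hU : i ∈ U
  · simp only [Finset.piecewise, hU, if_true]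
    exact h i (by simp [hi, hU])
  · simp [Finset.piecewise, hU]

theorem restr'_junta_self (U : Finset ι) (x : ∀ i, A i) {g : (∀ i, A i) → ℝ}
    (hg : g ∈ junta A U) : restr' U x g = g := by
  funext z
  apply hg
  intro i hi
  simp [Finset.piecewise, hi]

theorem restr'_lowDeg (U : Finset ι) (x : ∀ i, A i) (d : ℕ) :
    lowDeg A d ≤ (lowDeg A d).comap (restr' U x) := by
  refine iSup₂_le fun S hS g hg => ?_
  refine junta_le_lowDeg ?_ (restr'_junta U S x hg)
  exact (Finset.card_le_card Finset.inter_subset_left).trans hS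

/-- Block sensitivity bound. -/
theorem blocks_le {f : (∀ i, A i) → ℝ} (hf : ∀ x, f x = 0 ∨ f x = 1) {d : ℕ}
    (hd : f ∈ lowDeg A d) (x : ∀ i, A i) (D : Finset (Finset ι))
    (hdis : (D : Set (Finset ι)).PairwiseDisjoint id)
    (hsens : ∀ S ∈ D, ∃ z, f (S.piecewise z x) ≠ f x) : D.card ≤ d ^ 2 := by
  classical
  have : Nonempty (∀ i, A i) := ⟨x⟩
  choose! z hz using hsens
  -- the embedding of the cube
  let φ : Finset D → (∀ i, A i) := fun V i =>
    if h : ∃ S : D, S ∈ V ∧ i ∈ (S : Finset ι) then z h.choose i else x i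
  have uniq : ∀ (S S' : D) (i : ι), i ∈ (S : Finset ι) → i ∈ (S' : Finset ι) → S = S' := by
    intro S S' i h h'
    by_contra hne
    have := hdis S.2 S'.2 (fun h => hne (Subtype.ext h))
    exact Finset.disjoint_left.1 this h h'
  have φ_in : ∀ (V : Finset D) (S : D) (i : ι), S ∈ V → i ∈ (S : Finset ι) → φ V i = z S i := by
    intro V S i hS hi
    have h : ∃ S : D, S ∈ V ∧ i ∈ (S : Finset ι) := ⟨S, hS, hi⟩
    simp only [φ, h, dif_pos]
    rw [uniq _ _ i h.choose_spec.2 hi]
  have φ_out : ∀ (V : Finset D) (i : ι), (∀ S : D, S ∈ V → i ∉ (S : Finset ι)) → φ V i = x i := by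
    intro V i hi
    have h : ¬ ∃ S : D, S ∈ V ∧ i ∈ (S : Finset ι) := by
      rintro ⟨S, hS, hS'⟩; exact hi S hS hS'
    simp only [φ, h, dif_neg, not_false_iff]
  let s : ℝ := 1 - 2 * f x
  let h : Finset D → ℝ := fun V => s * (f (φ V) - f x)
  have hlow : h ∈ cubeLow D d := by
    -- linear map
    let L : ((∀ i, A i) → ℝ) →ₗ[ℝ] (Finset D → ℝ) :=
      { toFun := fun g V => g (φ V), map_add' := fun _ _ => rfl, map_smul' := fun _ _ => rfl }
    have hL : lowDeg A d ≤ (cubeLow D d).comap L := by
      refine iSup₂_le fun S hS g hg => ?_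
      refine Submodule.subset_span ⟨Finset.univ.filter fun B : D => ¬ Disjoint (B : Finset ι) S, ?_, ?_⟩
      · calc (Finset.univ.filter fun B : D => ¬ Disjoint (B : Finset ι) S).card
            ≤ ((Finset.univ.filter fun B : D => ¬ Disjoint (B : Finset ι) S).biUnion
                fun B => (B : Finset ι) ∩ S).card := by
              refine Finset.card_le_card_biUnion ?_ ?_
              · intro B _ B' _ hne
                refine Finset.disjoint_left.2 fun i hi hi' => hne ?_
                exact uniq _ _ i (Finset.mem_inter.1 hi).1 (Finset.mem_inter.1 hi').1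
              · intro B hB
                simp only [mem_filter, mem_univ, true_and] at hB
                exact Finset.not_disjoint_iff_nonempty_inter.1 hB
          _ ≤ S.card := by
              refine Finset.card_le_card ?_
              intro i hi
              simp only [mem_biUnion, mem_inter] at hi
              obtain ⟨_, _, _, h⟩ := hi
              exact h
          _ ≤ d := hS
      · intro V
        show g (φ V) = g (φ _)
        apply hg
        intro i hi
        by_cases hV : ∃ B : D, B ∈ V ∧ i ∈ (B : Finset ι)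
        · obtain ⟨B, hB, hBi⟩ := hV
          rw [φ_in V B i hB hBi, φ_in _ B i _ hBi]
          simp only [mem_inter, mem_filter, mem_univ, true_and, hB]
          exact Finset.not_disjoint_iff.2 ⟨i, hBi, hi⟩
        · push Not at hV
          rw [φ_out V i hV, φ_out]
          intro B hB
          exact hV B (Finset.mem_inter.1 hB).1
    have e : h = L (s • (f - fun _ => f x)) := by
      funext V
      rfl
    rw [e]
    exact hL ((lowDeg A d).smul_mem _ ((lowDeg A d).sub_mem hd (const_mem_lowDeg _ _)))
  have φ_empty : φ ∅ = x := by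
    funext i; exact φ_out ∅ i (by simp)
  have φ_single : ∀ S : D, φ {S} = (S : Finset ι).piecewise (z S) x := by
    intro S; funext i
    by_cases hi : i ∈ (S : Finset ι)
    · rw [φ_in {S} S i (by simp) hi]; simp [hi]
    · rw [φ_out {S} i (by simpa using hi)]; simp [hi]
  have h0 : h ∅ = 0 := by simp [h, φ_empty]
  have h1 : ∀ S : D, h {S} = 1 := by
    intro S
    have hne := hz S S.2
    simp only [h, φ_single, s]
    rcases hf x with hx | hx <;> rcases hf ((S : Finset ι).piecewise (z S) x) with hy | hy
    · exact absurd (hy.trans hx.symm) hne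
    · rw [hx, hy]; norm_num
    · rw [hx, hy]; norm_num
    · exact absurd (hy.trans hx.symm) hne
  have hb : ∀ V, 0 ≤ h V ∧ h V ≤ 1 := by
    intro V
    simp only [h, s]
    rcases hf x with hx | hx <;> rcases hf (φ V) with hy | hy <;> rw [hx, hy] <;> norm_num
  have := card_le_sq_of_cubeLow hlow hb h0 h1
  simpa using this

/-- Hitting set lemma: a boolean function of degree `≤ d+1` becomes of degree `≤ d` after fixing
at most `(d+1)^3` coordinates (independent of the values). -/
theorem exists_hitting {f : (∀ i, A i) → ℝ} (hf : ∀ x, f x = 0 ∨ f x = 1) {d : ℕ}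
    (hd : f ∈ lowDeg A (d + 1)) :
    ∃ U : Finset ι, U.card ≤ (d + 1) ^ 3 ∧
      ∀ a : ∀ i, A i, (fun z => f (U.piecewise a z)) ∈ lowDeg A d := by
  classical
  -- trivial case: no points
  by_cases hne : Nonempty (∀ i, A i)
  swap
  · refine ⟨∅, by simp, fun a => absurd ⟨a⟩ hne⟩
  obtain ⟨x₀⟩ := hne
  -- minimal family of top sets
  let J : Finset (Finset ι) → Submodule ℝ ((∀ i, A i) → ℝ) := fun W =>
    lowDeg A d ⊔ ⨆ (S : Finset ι) (_ : S ∈ W), junta A S
  let good : Finset (Finset ι) → Prop := fun W => (∀ S ∈ W, S.card = d + 1) ∧ f ∈ J W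
  have hgood : good (Finset.univ.filter fun S : Finset ι => S.card = d + 1) := by
    refine ⟨fun S hS => by simpa using hS, ?_⟩
    have : lowDeg A (d + 1) ≤ J (Finset.univ.filter fun S : Finset ι => S.card = d + 1) := by
      refine iSup₂_le fun S hS => ?_
      rcases Nat.lt_or_ge S.card (d + 1) with h | h
      · exact (junta_le_lowDeg (by omega)).trans le_sup_left
      · have : S.card = d + 1 := by omega
        exact (le_iSup₂_of_le (f := fun (S : Finset ι)
          (_ : S ∈ Finset.univ.filter fun S : Finset ι => S.card = d + 1) => junta A S)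
          S (by simp [this]) le_rfl).trans le_sup_right
    exact this hd
  obtain ⟨W, hW, hmin⟩ := Finset.exists_min_image
    (Finset.univ.filter fun W : Finset (Finset ι) => good W) Finset.card
    ⟨_, by simpa using hgood⟩
  simp only [mem_filter, mem_univ, true_and] at hW hmin
  obtain ⟨hWcard, hWf⟩ := hW
  -- sensitivity of every member of W at every point
  have hsens : ∀ S ∈ W, ∀ x : ∀ i, A i, ∃ z, f (S.piecewise z x) ≠ f x := by
    intro S hS x
    by_contra hcon
    push Not at hcon
    have hsplit : J W ≤ (J (W.erase S)) ⊔ junta A S := by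
      refine sup_le (le_sup_left.trans le_sup_left) (iSup₂_le fun S' hS' => ?_)
      by_cases h : S' = S
      · rw [h]; exact le_sup_right
      · refine le_trans ?_ le_sup_left
        refine le_trans ?_ le_sup_right
        exact le_iSup₂_of_le (f := fun (T : Finset ι) (_ : T ∈ W.erase S) => junta A T) S'
          (Finset.mem_erase.2 ⟨h, hS'⟩) le_rfl
    obtain ⟨l, hl, g, hg, hlg⟩ := Submodule.mem_sup.1 (hsplit hWf)
    have hRl : restr' S x l ∈ lowDeg A d := by
      have : J (W.erase S) ≤ (lowDeg A d).comap (restr' S x) := by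
        refine sup_le (restr'_lowDeg S x d) (iSup₂_le fun S' hS' g' hg' => ?_)
        refine junta_le_lowDeg ?_ (restr'_junta S S' x hg')
        obtain ⟨hne, hmem⟩ := Finset.mem_erase.1 hS'
        have hss : (S' ∩ S) ⊂ S' := by
          refine Finset.ssubset_iff_subset_ne.2 ⟨Finset.inter_subset_left, fun he => ?_⟩
          have hsub : S' ⊆ S := Finset.inter_eq_left.1 he
          exact hne (Finset.eq_of_subset_of_card_le hsub (by rw [hWcard S hS, hWcard S' hmem]))
        have := Finset.card_lt_card hss
        rw [hWcard S' hmem] at this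
        omega
      exact this hl
    have hRg : restr' S x g = g := restr'_junta_self S x hg
    have hRf : restr' S x f = fun _ => f x := by
      funext y; exact hcon y
    have hgl : g ∈ lowDeg A d := by
      have : g = (fun _ => f x) - restr' S x l := by
        rw [← hRf, ← hlg, map_add, hRg]; abel
      rw [this]
      exact (lowDeg A d).sub_mem (const_mem_lowDeg _ _) hRl
    have hgood' : good (W.erase S) := by
      refine ⟨fun T hT => hWcard T (Finset.mem_of_mem_erase hT), ?_⟩
      rw [← hlg]
      exact (J (W.erase S)).add_mem hl ((le_sup_left : lowDeg A d ≤ J (W.erase S)) hgl)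
    have := hmin _ hgood'
    rw [Finset.card_erase_of_mem hS] at this
    have : 0 < W.card := Finset.card_pos.2 ⟨S, hS⟩
    omega
  -- maximal disjoint subfamily
  obtain ⟨D, hD, hDmax⟩ := Finset.exists_max_image
    (W.powerset.filter fun D : Finset (Finset ι) => (D : Set (Finset ι)).PairwiseDisjoint id)
    Finset.card ⟨∅, by simp⟩
  simp only [mem_filter, mem_powerset] at hD hDmax
  obtain ⟨hDW, hDdis⟩ := hD
  have hDcard : D.card ≤ (d + 1) ^ 2 :=
    blocks_le hf hd x₀ D hDdis fun S hS => hsens S (hDW hS) x₀
  have hhit : ∀ S ∈ W, ¬ Disjoint S (D.biUnion id) := by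
    intro S hS hdisj
    have hSne : S.Nonempty := by
      rw [← Finset.card_pos, hWcard S hS]; omega
    have hSD : S ∉ D := by
      intro h
      obtain ⟨i, hi⟩ := hSne
      exact Finset.disjoint_left.1 hdisj hi (Finset.mem_biUnion.2 ⟨S, h, hi⟩)
    have := hDmax (insert S D) ⟨Finset.insert_subset hS hDW, ?_⟩
    · rw [Finset.card_insert_of_notMem hSD] at this
      omega
    · rw [Finset.coe_insert]
      refine hDdis.insert fun T hT _ => ?_
      rw [Finset.disjoint_biUnion_right] at hdisj
      exact hdisj T hT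
  refine ⟨D.biUnion id, ?_, ?_⟩
  · calc (D.biUnion id).card ≤ D.card * (d + 1) :=
          Finset.card_biUnion_le_card_mul _ _ _ fun S hS => (hWcard S (hDW hS)).le
      _ ≤ (d + 1) ^ 2 * (d + 1) := Nat.mul_le_mul_right _ hDcard
      _ = (d + 1) ^ 3 := by ring
  · intro a
    have : J W ≤ (lowDeg A d).comap (restr (D.biUnion id) a) := by
      refine sup_le (restr_lowDeg _ a d) (iSup₂_le fun S hS g hg => ?_)
      refine junta_le_lowDeg ?_ (restr_junta _ S a hg)
      have hss : S \ (D.biUnion id) ⊂ S := by
        refine Finset.ssubset_iff_subset_ne.2 ⟨Finset.sdiff_subset, fun he => ?_⟩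
        exact hhit S hS (Finset.sdiff_eq_self_iff_disjoint.1 he)
      have := Finset.card_lt_card hss
      rw [hWcard S hS] at this
      omega
    exact this hWf

/-- `DTLe q f`: `f` is computed by adaptively querying at most `q` coordinates. -/
inductive DTLe {ι : Type*} [DecidableEq ι] {A : ι → Type*} : ℕ → ((∀ i, A i) → Bool) → Prop
  | const (q : ℕ) (f : (∀ i, A i) → Bool) (h : ∀ x y, f x = f y) : DTLe q f
  | query (q : ℕ) (f : (∀ i, A i) → Bool) (i : ι)
      (h : ∀ a : A i, DTLe q (fun z => f (Function.update z i a))) : DTLe (q + 1) f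

theorem DTLe.mono {q q' : ℕ} {f : (∀ i, A i) → Bool} (h : q ≤ q') (hf : DTLe q f) :
    DTLe q' f := by
  induction hf generalizing q' with
  | const q f hc => exact DTLe.const _ _ hc
  | query q f i _ ih =>
    obtain ⟨q'', rfl⟩ : ∃ q'', q' = q'' + 1 := ⟨q' - 1, by omega⟩
    exact DTLe.query _ _ i fun a => ih a (by omega)

theorem DTLe.queries {q : ℕ} (U : Finset ι) : ∀ (f : (∀ i, A i) → Bool),
    (∀ a : ∀ i, A i, DTLe q (fun z => f (U.piecewise a z))) → DTLe (q + U.card) f := by
  induction U using Finset.induction_on with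
  | empty =>
    intro f h
    by_cases hne : Nonempty (∀ i, A i)
    · obtain ⟨a⟩ := hne
      simpa using h a
    · exact DTLe.const _ _ fun x y => absurd ⟨x⟩ hne
  | insert i U hi ih =>
    intro f h
    rw [Finset.card_insert_of_notMem hi, ← add_assoc]
    refine DTLe.query _ f i fun b => ih _ fun a => ?_
    have := h (Function.update a i b)
    convert this using 3 with z
    funext j
    by_cases hj : j = i
    · subst hj; simp
    · by_cases hU : j ∈ U
      · simp [hj, hU]
      · simp [hj, hU]

theorem dtle_of_lowDeg (d : ℕ) : ∀ (f : (∀ i, A i) → Bool),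
    (fun x => if f x then (1:ℝ) else 0) ∈ lowDeg A d → DTLe (d ^ 4) f := by
  suffices H : ∀ (f : (∀ i, A i) → Bool), (fun x => if f x then (1:ℝ) else 0) ∈ lowDeg A d →
      DTLe (∑ j ∈ Finset.range d, (j + 1) ^ 3) f by
    intro f hf
    have h := H f hf
    have hle : (∑ j ∈ Finset.range d, (j + 1) ^ 3) ≤ d ^ 4 := by
      calc (∑ j ∈ Finset.range d, (j + 1) ^ 3) ≤ ∑ _j ∈ Finset.range d, d ^ 3 :=
            Finset.sum_le_sum fun j hj => Nat.pow_le_pow_left (Finset.mem_range.1 hj) 3
        _ = d ^ 4 := by simp; ring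
    exact DTLe.mono hle h
  induction d with
  | zero =>
    intro f hf
    refine DTLe.const _ _ fun x y => ?_
    have := lowDeg_zero_const hf x y
    by_cases hx : f x = true <;> by_cases hy : f y = true <;> simp_all
  | succ d ih =>
    intro f hf
    obtain ⟨U, hU, hUa⟩ := exists_hitting (fun x => by by_cases h : f x = true <;> simp [h]) hf
    rw [Finset.sum_range_succ]
    exact DTLe.mono (Nat.add_le_add_left hU _) (DTLe.queries U f fun a => ih _ (hUa a))

end Pool.Agent.Lib_helper10.LogRank
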