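import Mathlib
import Pool.Agent.Lib_helper10.LogRank.Defs
import Pool.Agent.Lib_helper10.LogRank.LowDeg

set_option autoImplicit false
set_option linter.unusedSectionVars false

/-! Protocol building blocks. -/

namespace Pool.Agent.Lib_helper10.LogRank

open Finset

variable {X Y : Type}

/-- `F` restricted to the set of inputs `R` has a protocol of cost at most `c`. -/
def CCOn (R : X → Y → Prop) (F : X → Y → Bool) (c : ℕ) : Prop :=
  ∃ π : Protocol X Y, π.cost ≤ c ∧ ∀ x y, R x y → π.eval x y = F x y

theorem CCOn.mono {R R' : X → Y → Prop} {F : X → Y → Bool} {c c' : ℕ} (hR : ∀ x y, R' x y → R x y)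
    (hc : c ≤ c') (h : CCOn R F c) : CCOn R' F c' := by
  obtain ⟨π, h1, h2⟩ := h
  exact ⟨π, h1.trans hc, fun x y hxy => h2 x y (hR x y hxy)⟩

theorem CCOn.congr {R : X → Y → Prop} {F G : X → Y → Bool} {c : ℕ}
    (hFG : ∀ x y, R x y → F x y = G x y) (h : CCOn R F c) : CCOn R G c := by
  obtain ⟨π, h1, h2⟩ := h
  exact ⟨π, h1, fun x y hxy => (h2 x y hxy).trans (hFG x y hxy)⟩

theorem CCOn.alice {R : X → Y → Prop} {F : X → Y → Bool} {c : ℕ} (s : X → Bool)
    (h : ∀ b, CCOn (fun x y => R x y ∧ s x = b) F c) : CCOn R F (c + 1) := by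
  obtain ⟨π₀, h01, h02⟩ := h false
  obtain ⟨π₁, h11, h12⟩ := h true
  refine ⟨Protocol.alice s π₀ π₁, by simp [Protocol.cost, h01, h11], fun x y hxy => ?_⟩
  by_cases hs : s x = true
  · simp only [Protocol.eval, hs, if_true]; exact h12 x y ⟨hxy, hs⟩
  · simp only [Bool.not_eq_true] at hs
    simp only [Protocol.eval, hs]; exact h02 x y ⟨hxy, hs⟩

theorem CCOn.bob {R : X → Y → Prop} {F : X → Y → Bool} {c : ℕ} (s : Y → Bool)
    (h : ∀ b, CCOn (fun x y => R x y ∧ s y = b) F c) : CCOn R F (c + 1) := by
  obtain ⟨π₀, h01, h02⟩ := h false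
  obtain ⟨π₁, h11, h12⟩ := h true
  refine ⟨Protocol.bob s π₀ π₁, by simp [Protocol.cost, h01, h11], fun x y hxy => ?_⟩
  by_cases hs : s y = true
  · simp only [Protocol.eval, hs, if_true]; exact h12 x y ⟨hxy, hs⟩
  · simp only [Bool.not_eq_true] at hs
    simp only [Protocol.eval, hs]; exact h02 x y ⟨hxy, hs⟩

theorem sendA_nat {R : X → Y → Prop} {F : X → Y → Bool} {c : ℕ} (b : ℕ) :
    ∀ (R : X → Y → Prop) (lab : X → ℕ), (∀ x, lab x < 2 ^ b) →
    (∀ l, CCOn (fun x y => R x y ∧ lab x = l) F c) → CCOn R F (c + b) := by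
  induction b with
  | zero =>
    intro R lab hlab h
    refine (h 0).mono (fun x y hxy => ⟨hxy, ?_⟩) (by omega)
    have := hlab x; simp at this; exact this
  | succ b ih =>
    intro R lab hlab h
    rw [← add_assoc]
    refine CCOn.alice (fun x => decide (lab x % 2 = 1)) fun p => ?_
    refine ih _ (fun x => lab x / 2) (fun x => ?_) fun l => ?_
    · have := hlab x; rw [pow_succ] at this; omega
    · refine (h (2 * l + if p then 1 else 0)).mono (fun x y hxy => ⟨hxy.1.1, ?_⟩) le_rfl
      obtain ⟨⟨_, h2⟩, h3⟩ := hxy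
      cases p
      · simp at h2 ⊢; omega
      · simp at h2 ⊢; omega

theorem sendB_nat {R : X → Y → Prop} {F : X → Y → Bool} {c : ℕ} (b : ℕ) :
    ∀ (R : X → Y → Prop) (lab : Y → ℕ), (∀ x, lab x < 2 ^ b) →
    (∀ l, CCOn (fun x y => R x y ∧ lab y = l) F c) → CCOn R F (c + b) := by
  induction b with
  | zero =>
    intro R lab hlab h
    refine (h 0).mono (fun x y hxy => ⟨hxy, ?_⟩) (by omega)
    have := hlab y; simp at this; exact this
  | succ b ih =>
    intro R lab hlab h
    rw [← add_assoc]
    refine CCOn.bob (fun x => decide (lab x % 2 = 1)) fun p => ?_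
    refine ih _ (fun x => lab x / 2) (fun x => ?_) fun l => ?_
    · have := hlab x; rw [pow_succ] at this; omega
    · refine (h (2 * l + if p then 1 else 0)).mono (fun x y hxy => ⟨hxy.1.1, ?_⟩) le_rfl
      obtain ⟨⟨_, h2⟩, h3⟩ := hxy
      cases p
      · simp at h2 ⊢; omega
      · simp at h2 ⊢; omega

/-- Alice sends a label. -/
theorem sendA {R : X → Y → Prop} {F : X → Y → Bool} {c b : ℕ} {L : Type*} [Fintype L]
    (lab : X → L) (hb : Fintype.card L ≤ 2 ^ b)
    (h : ∀ l, CCOn (fun x y => R x y ∧ lab x = l) F c) : CCOn R F (c + b) := by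
  classical
  let e := Fintype.equivFin L
  refine sendA_nat (X := X) (Y := Y) (R := R) b R (fun x => (e (lab x) : ℕ))
    (fun x => (e (lab x)).2.trans_le hb) fun l => ?_
  by_cases hl : l < Fintype.card L
  · refine (h (e.symm ⟨l, hl⟩)).mono (fun x y hxy => ⟨hxy.1, ?_⟩) le_rfl
    rw [Equiv.eq_symm_apply]
    exact Fin.ext hxy.2
  · refine ⟨Protocol.leaf true, Nat.zero_le _, fun x y hxy => absurd hxy.2 ?_⟩
    intro he
    exact hl (he ▸ (e (lab x)).2)

/-- Bob sends a label. -/
theorem sendB {R : X → Y → Prop} {F : X → Y → Bool} {c b : ℕ} {L : Type*} [Fintype L]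
    (lab : Y → L) (hb : Fintype.card L ≤ 2 ^ b)
    (h : ∀ l, CCOn (fun x y => R x y ∧ lab y = l) F c) : CCOn R F (c + b) := by
  classical
  let e := Fintype.equivFin L
  refine sendB_nat (X := X) (Y := Y) (R := R) b R (fun x => (e (lab x) : ℕ))
    (fun x => (e (lab x)).2.trans_le hb) fun l => ?_
  by_cases hl : l < Fintype.card L
  · refine (h (e.symm ⟨l, hl⟩)).mono (fun x y hxy => ⟨hxy.1, ?_⟩) le_rfl
    rw [Equiv.eq_symm_apply]
    exact Fin.ext hxy.2
  · refine ⟨Protocol.leaf true, Nat.zero_le _, fun x y hxy => absurd hxy.2 ?_⟩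
    intro he
    exact hl (he ▸ (e (lab y)).2)

/-- Simulation of a decision tree known to Bob on the sum of the two inputs. -/
theorem ccOn_of_dtle {ι : Type*} [Fintype ι] [DecidableEq ι] {A : ι → Type*}
    [∀ i, Fintype (A i)] [∀ i, Add (A i)] {b₁ b₂ : ℕ} (hb₁ : Fintype.card ι ≤ 2 ^ b₁)
    (hb₂ : ∀ i, Fintype.card (A i) ≤ 2 ^ b₂) (α : X → ∀ i, A i) (β : Y → ∀ i, A i) (q : ℕ) :
    ∀ (R : X → Y → Prop) (g : Y → (∀ i, A i) → Bool), (∀ y, DTLe q (g y)) →
      CCOn R (fun x y => g y (α x + β y)) (q * (b₁ + b₂) + 1) := by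
  classical
  induction q with
  | zero =>
    intro R g hg
    by_cases hne : Nonempty (∀ i, A i)
    · obtain ⟨a⟩ := hne
      have hconst : ∀ y u v, g y u = g y v := by
        intro y u v
        have := hg y
        generalize g y = f at this
        cases this with
        | const q f h => exact h u v
      have : CCOn R (fun x y => g y (α x + β y)) (0 + 1) := by
        refine CCOn.bob (fun y => g y a) fun b => ⟨Protocol.leaf b, by simp [Protocol.cost], ?_⟩
        intro x y hxy
        simp only [Protocol.eval]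
        rw [← hxy.2]; exact hconst _ _ _
      simpa using this
    · exact ⟨Protocol.leaf true, by simp [Protocol.cost], fun x y _ => absurd ⟨α x⟩ hne⟩
  | succ q ih =>
    intro R g hg
    by_cases hι : Nonempty ι
    · obtain ⟨i₀⟩ := hι
      have hq : ∀ y, ∃ i, ∀ a : A i, DTLe q (fun z => g y (Function.update z i a)) := by
        intro y
        have := hg y
        generalize g y = f at this
        cases this with
        | const q f h => exact ⟨i₀, fun a => DTLe.const _ _ fun x y => h _ _⟩
        | query q f i h => exact ⟨i, h⟩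
      choose i hi using hq
      have e : (q + 1) * (b₁ + b₂) + 1 = ((q * (b₁ + b₂) + 1) + b₂) + b₁ := by ring
      rw [e]
      refine sendB i hb₁ fun j => ?_
      refine sendA (fun x => α x j) (hb₂ j) fun a => ?_
      let g' : Y → (∀ i, A i) → Bool := fun y =>
        if i y = j then fun z => g y (Function.update z j (a + β y j)) else fun _ => true
      have hg' : ∀ y, DTLe q (g' y) := by
        intro y
        by_cases h : i y = j
        · simp only [g', h, if_true]
          subst h
          exact hi y _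
        · simp only [g', h, if_false]
          exact DTLe.const _ _ fun _ _ => rfl
      refine (ih _ g' hg').congr fun x y hxy => ?_
      obtain ⟨⟨_, h1⟩, h2⟩ := hxy
      simp only [g', h1, if_true]
      congr 1
      rw [← h2]
      exact Function.update_eq_self j (α x + β y)
    · -- no coordinates: everything is constant
      have h0 : ∀ y, DTLe q (g y) := fun y => DTLe.const _ _ fun u v => by
        congr 1; funext i; exact absurd ⟨i⟩ hι
      exact (ih R g h0).mono (fun _ _ h => h) (by nlinarith)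

end Pool.Agent.Lib_helper10.LogRank
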