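import Mathlib

set_option autoImplicit false
set_option linter.unusedSectionVars false

/-! Sequences and shift operators. -/

namespace Pool.Agent.Lib_helper10.LogRank

open Finset Polynomial

variable {K : Type*} [Field K]

/-- the shift operator on sequences -/
def shift (K : Type*) [Field K] : (ℕ → K) →ₗ[K] (ℕ → K) where
  toFun s n := s (n + 1)
  map_add' _ _ := rfl
  map_smul' _ _ := rfl

@[simp] theorem shift_apply (s : ℕ → K) (n : ℕ) : shift K s n = s (n + 1) := rfl

theorem shift_pow_apply (i : ℕ) (s : ℕ → K) (n : ℕ) : ((shift K) ^ i) s n = s (n + i) := by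
  induction i generalizing s n with
  | zero => simp
  | succ i ih =>
    rw [pow_succ, Module.End.mul_apply, ih, shift_apply]
    rfl

/-- the action of a polynomial in the shift -/
noncomputable def T (p : K[X]) : (ℕ → K) →ₗ[K] (ℕ → K) := aeval (shift K) p

theorem T_apply' (p : K[X]) {N : ℕ} (hN : p.natDegree < N) (s : ℕ → K) (n : ℕ) :
    T p s n = ∑ j ∈ Finset.range N, p.coeff j * s (n + j) := by
  unfold T
  rw [aeval_eq_sum_range' hN]
  simp [LinearMap.sum_apply, Finset.sum_apply, shift_pow_apply]

theorem T_apply (p : K[X]) (s : ℕ → K) (n : ℕ) :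
    T p s n = ∑ j ∈ Finset.range (p.natDegree + 1), p.coeff j * s (n + j) :=
  T_apply' p (Nat.lt_succ_self _) s n

theorem T_mul (p q : K[X]) (s : ℕ → K) : T (p * q) s = T p (T q s) := by
  simp [T, Module.End.mul_apply]

theorem T_add (p q : K[X]) (s : ℕ → K) : T (p + q) s = T p s + T q s := by
  simp [T]

theorem T_comm (p q : K[X]) (s : ℕ → K) : T p (T q s) = T q (T p s) := by
  rw [← T_mul, ← T_mul, mul_comm]

theorem T_zero_of_dvd {p q : K[X]} (h : p ∣ q) {s : ℕ → K} (hs : T p s = 0) : T q s = 0 := by
  obtain ⟨c, rfl⟩ := h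
  rw [mul_comm, T_mul, hs, map_zero]

theorem T_X_pow (i : ℕ) (s : ℕ → K) (n : ℕ) : T (X ^ i : K[X]) s n = s (n + i) := by
  simp [T, shift_pow_apply]

theorem T_X_pow_sub_one (P : ℕ) (s : ℕ → K) (n : ℕ) :
    T (X ^ P - 1 : K[X]) s n = s (n + P) - s n := by
  simp [T, shift_pow_apply]

theorem T_shift (p : K[X]) (s : ℕ → K) (i : ℕ) :
    T p (fun n => s (n + i)) = fun n => T p s (n + i) := by
  have h : (fun n => s (n + i)) = T (X ^ i : K[X]) s := by
    funext n; rw [T_X_pow]
  have h' : (fun n => T p s (n + i)) = T (X ^ i : K[X]) (T p s) := by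
    funext n; rw [T_X_pow]
  rw [h, h', T_comm]

/-- vanishing: monic recurrences propagate zeros forward (window version) -/
theorem vanish_window {p : K[X]} (hp : p.Monic) {u : ℕ → K} {w : ℕ}
    (hT : ∀ n, n + p.natDegree < w → T p u n = 0) (h0 : ∀ n, n < p.natDegree → u n = 0) :
    ∀ n, n < w → u n = 0 := by
  intro n
  induction n using Nat.strong_induction_on with
  | _ n ih =>
    intro hn
    rcases Nat.lt_or_ge n p.natDegree with h | h
    · exact h0 n h
    · obtain ⟨m, rfl⟩ : ∃ m, n = m + p.natDegree := ⟨n - p.natDegree, by omega⟩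
      have h1 := hT m hn
      rw [T_apply, Finset.sum_range_succ] at h1
      have h2 : ∑ j ∈ Finset.range p.natDegree, p.coeff j * u (m + j) = 0 := by
        refine Finset.sum_eq_zero fun j hj => ?_
        have := Finset.mem_range.1 hj
        rw [ih (m + j) (by omega) (by omega), mul_zero]
      rw [h2, zero_add, hp.coeff_natDegree, one_mul] at h1
      exact h1

theorem vanish {p : K[X]} (hp : p.Monic) {u : ℕ → K}
    (hT : T p u = 0) (h0 : ∀ n, n < p.natDegree → u n = 0) : u = 0 := by
  funext n
  exact vanish_window hp (w := n + 1) (fun m _ => by rw [hT]; rfl) h0 n (by omega)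

/-- coefficients expressing the `n`-th term through the first ones -/
noncomputable def kap (p : K[X]) (n j : ℕ) : K := ((X ^ n : K[X]) %ₘ p).coeff j

/-- the extension of (the first terms of) a sequence by the recurrence `p` -/
noncomputable def ext (p : K[X]) (s : ℕ → K) : ℕ → K :=
  fun n => ∑ j ∈ Finset.range p.natDegree, kap p n j * s j

theorem kap_lt {p : K[X]} (hp : p.Monic) {n : ℕ} (hn : n < p.natDegree) (j : ℕ) :
    kap p n j = if j = n then 1 else 0 := by
  unfold kap
  rw [(Polynomial.modByMonic_eq_self_iff hp).2]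
  · rw [coeff_X_pow]
  · rw [degree_X_pow]
    exact (Nat.cast_lt.2 hn).trans_eq (Polynomial.degree_eq_natDegree hp.ne_zero).symm

theorem T_kap {p : K[X]} (hp : p.Monic) (j : ℕ) : T p (fun n => kap p n j) = 0 := by
  funext n
  rw [T_apply]
  have h1 : ((∑ i ∈ Finset.range (p.natDegree + 1), C (p.coeff i) * X ^ (n + i)) %ₘ p).coeff j
      = ∑ i ∈ Finset.range (p.natDegree + 1), p.coeff i * kap p (n + i) j := by
    have : ((∑ i ∈ Finset.range (p.natDegree + 1), C (p.coeff i) * X ^ (n + i)) %ₘ p)
        = ∑ i ∈ Finset.range (p.natDegree + 1), p.coeff i • ((X ^ (n + i) : K[X]) %ₘ p) := by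
      have := map_sum (Polynomial.modByMonicHom p)
        (fun i => C (p.coeff i) * (X : K[X]) ^ (n + i)) (Finset.range (p.natDegree + 1))
      simp only [Polynomial.modByMonicHom_apply] at this
      rw [this]
      refine Finset.sum_congr rfl fun i _ => ?_
      rw [← Polynomial.smul_modByMonic, Polynomial.smul_eq_C_mul]
    rw [this, Polynomial.finsetSum_coeff]
    refine Finset.sum_congr rfl fun i _ => ?_
    rw [Polynomial.coeff_smul, smul_eq_mul, kap]
  have h2 : (∑ i ∈ Finset.range (p.natDegree + 1), C (p.coeff i) * X ^ (n + i)) = X ^ n * p := by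
    conv_rhs => rw [Polynomial.as_sum_range_C_mul_X_pow p]
    rw [Finset.mul_sum]
    refine Finset.sum_congr rfl fun i _ => ?_
    ring
  rw [← h1, h2, (Polynomial.modByMonic_eq_zero_iff_dvd hp).2 (dvd_mul_left _ _)]
  simp

theorem T_ext {p : K[X]} (hp : p.Monic) (s : ℕ → K) : T p (ext p s) = 0 := by
  have : ext p s = ∑ j ∈ Finset.range p.natDegree, s j • (fun n => kap p n j) := by
    funext n
    simp [ext, Finset.sum_apply, mul_comm]
  rw [this, map_sum]
  refine Finset.sum_eq_zero fun j _ => ?_
  rw [map_smul, T_kap hp, smul_zero]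

theorem ext_init {p : K[X]} (hp : p.Monic) (s : ℕ → K) {n : ℕ} (hn : n < p.natDegree) :
    ext p s n = s n := by
  unfold ext
  rw [Finset.sum_eq_single n]
  · rw [kap_lt hp hn]; simp
  · intro j _ hj; rw [kap_lt hp hn]; simp [hj]
  · intro h; exact absurd (Finset.mem_range.2 hn) h

theorem ext_window {p : K[X]} (hp : p.Monic) {s : ℕ → K} {w : ℕ}
    (hT : ∀ n, n + p.natDegree < w → T p s n = 0) : ∀ n, n < w → ext p s n = s n := by
  intro n hn
  have := vanish_window hp (u := ext p s - s) (w := w) (fun m hm => by
    rw [map_sub, T_ext hp, zero_sub, Pi.neg_apply, hT m hm, neg_zero])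
    (fun m hm => by rw [Pi.sub_apply, ext_init hp s hm, sub_self]) n hn
  rwa [Pi.sub_apply, sub_eq_zero] at this

theorem ext_eq {p : K[X]} (hp : p.Monic) {s : ℕ → K} (hT : T p s = 0) : ext p s = s := by
  funext n
  exact ext_window hp (w := n + 1) (fun m _ => by rw [hT]; rfl) n (by omega)

/-- Cayley–Hamilton: an element of a shift-invariant finite-dimensional space of sequences
vanishing on the first `dim` positions is zero. -/
theorem vanish_of_mem {W : Submodule K (ℕ → K)} [FiniteDimensional K W]
    (hW : ∀ u ∈ W, shift K u ∈ W) {M : ℕ} (hM : Module.finrank K W ≤ M) {u : ℕ → K} (hu : u ∈ W)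
    (h0 : ∀ n, n < M → u n = 0) : u = 0 := by
  let E : W →ₗ[K] W := (shift K).restrict hW
  have hE : ∀ (p : K[X]) (v : W), ((aeval E p v : W) : ℕ → K) = T p v := by
    intro p v
    unfold T
    induction p using Polynomial.induction_on' with
    | add p q hp hq => simp [hp, hq]
    | monomial n a =>
      simp only [aeval_monomial]
      have : ∀ (n : ℕ) (v : W), (((E ^ n) v : W) : ℕ → K) = ((shift K) ^ n) (v : ℕ → K) := by
        intro n
        induction n with
        | zero => intro v; simp
        | succ n ih => intro v; rw [pow_succ, pow_succ, Module.End.mul_apply, ih]; rfl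
      simp [Module.algebraMap_end_apply, this]
  refine vanish (p := E.charpoly) (LinearMap.charpoly_monic E) ?_ ?_
  · have := hE E.charpoly ⟨u, hu⟩
    rw [LinearMap.aeval_self_charpoly] at this
    simpa using this.symm
  · intro n hn
    rw [LinearMap.charpoly_natDegree] at hn
    exact h0 n (by omega)

/-- Boolean transfer: if a solution of a recurrence of order `D` is boolean on the first
`D^2 + D` positions then it is boolean everywhere. -/
theorem bool_transfer {p : K[X]} (hp : p.Monic) {u : ℕ → K} (hT : T p u = 0)
    (h : ∀ n, n < p.natDegree ^ 2 + p.natDegree → u n = 0 ∨ u n = 1) :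
    ∀ n, u n = 0 ∨ u n = 1 := by
  set D := p.natDegree with hD
  let b : (Fin D × Fin D) ⊕ Fin D → (ℕ → K) := Sum.elim
    (fun ij n => kap p n ij.1 * kap p n ij.2) (fun j n => kap p n j)
  let W : Submodule K (ℕ → K) := Submodule.span K (Set.range b)
  have hfin : FiniteDimensional K W := FiniteDimensional.span_of_finite K (Set.finite_range b)
  have hdim : Module.finrank K W ≤ D ^ 2 + D := by
    have := finrank_range_le_card (R := K) b
    unfold Set.finrank at this
    refine this.trans ?_
    simp [sq]
  have hsol : ∀ v : ℕ → K, T p v = 0 → ∀ n, v n = ∑ j : Fin D, v j * kap p n j := by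
    intro v hv n
    conv_lhs => rw [← ext_eq hp hv]
    unfold ext
    rw [Finset.sum_range]
    exact Finset.sum_congr rfl fun j _ => mul_comm _ _
  have hk : ∀ j n, kap p (n + 1) j = ∑ i : Fin D, kap p (i + 1) j * kap p n i := by
    intro j n
    have h1 : T p (fun n => kap p (n + 1) j) = 0 := by
      rw [T_shift p (fun n => kap p n j) 1, T_kap hp]; rfl
    exact hsol _ h1 n
  have hWinv : ∀ v ∈ W, shift K v ∈ W := by
    intro v hv
    refine Submodule.span_induction (p := fun v _ => shift K v ∈ W) ?_ ?_ ?_ ?_ hv
    · rintro _ ⟨ij | j, rfl⟩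
      · have : shift K (b (Sum.inl ij)) = ∑ k : Fin D, ∑ l : Fin D,
            (kap p (k + 1) ij.1 * kap p (l + 1) ij.2) • b (Sum.inl (k, l)) := by
          funext n
          simp only [Finset.sum_apply, Pi.smul_apply, smul_eq_mul]
          show kap p (n + 1) ij.1 * kap p (n + 1) ij.2 = ∑ k : Fin D, ∑ l : Fin D,
            (kap p (k + 1) ij.1 * kap p (l + 1) ij.2) * (kap p n k * kap p n l)
          rw [hk, hk, Finset.sum_mul_sum]
          refine Finset.sum_congr rfl fun k _ => Finset.sum_congr rfl fun l _ => ?_
          ring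
        rw [this]
        exact Submodule.sum_mem _ fun k _ => Submodule.sum_mem _ fun l _ =>
          Submodule.smul_mem _ _ (Submodule.subset_span ⟨_, rfl⟩)
      · have : shift K (b (Sum.inr j)) = ∑ k : Fin D, (kap p (k + 1) j) • b (Sum.inr k) := by
          funext n
          simp only [Finset.sum_apply, Pi.smul_apply, smul_eq_mul]
          show kap p (n + 1) j = ∑ k : Fin D, kap p (k + 1) j * kap p n k
          rw [hk]
        rw [this]
        exact Submodule.sum_mem _ fun k _ => Submodule.smul_mem _ _ (Submodule.subset_span ⟨_, rfl⟩)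
    · rw [map_zero]; exact W.zero_mem
    · intro a c _ _ ha hc; rw [map_add]; exact W.add_mem ha hc
    · intro c a _ ha; rw [map_smul]; exact W.smul_mem _ ha
  have hmem : (fun n => u n * u n - u n) ∈ W := by
    have : (fun n => u n * u n - u n) = (∑ k : Fin D, ∑ l : Fin D,
        (u k * u l) • b (Sum.inl (k, l))) - ∑ k : Fin D, (u k) • b (Sum.inr k) := by
      funext n
      simp only [Pi.sub_apply, Finset.sum_apply, Pi.smul_apply, smul_eq_mul, b, Sum.elim_inl,
        Sum.elim_inr]
      rw [← hsol u hT n]
      congr 1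
      rw [hsol u hT n, Finset.sum_mul_sum]
      refine Finset.sum_congr rfl fun k _ => Finset.sum_congr rfl fun l _ => ?_
      ring
    rw [this]
    exact W.sub_mem (Submodule.sum_mem _ fun k _ => Submodule.sum_mem _ fun l _ =>
          Submodule.smul_mem _ _ (Submodule.subset_span ⟨_, rfl⟩))
        (Submodule.sum_mem _ fun k _ => Submodule.smul_mem _ _ (Submodule.subset_span ⟨_, rfl⟩))
  have hz := vanish_of_mem hWinv hdim hmem (fun n hn => by
    rcases h n hn with h | h <;> simp [h])
  intro n
  have := congrFun hz n
  simp only [Pi.zero_apply] at this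
  have h2 : u n * (u n - 1) = 0 := by rw [← this]; ring
  rcases mul_eq_zero.1 h2 with h | h
  · exact Or.inl h
  · exact Or.inr (sub_eq_zero.1 h)

/-- Boolean solutions of a reversible recurrence are periodic. -/
theorem periodic_of_bool {p : K[X]} (hp : p.Monic) (hp0 : p.coeff 0 ≠ 0) {u : ℕ → K}
    (hT : T p u = 0) (h : ∀ n, u n = 0 ∨ u n = 1) : ∃ P, 0 < P ∧ ∀ n, u (n + P) = u n := by
  classical
  let st : ℕ → (Fin p.natDegree → Bool) := fun n j => decide (u (n + j) = 1)
  obtain ⟨i, j, hij, hst⟩ := Finite.exists_ne_map_eq_of_infinite st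
  wlog hlt : i < j generalizing i j
  · exact this j i (Ne.symm hij) hst.symm (by omega)
  have hinit : ∀ m, m < p.natDegree → u (i + m) = u (j + m) := by
    intro m hm
    have := congrFun hst ⟨m, hm⟩
    simp only [st, decide_eq_decide] at this
    rcases h (i + m) with h1 | h1 <;> rcases h (j + m) with h2 | h2 <;>
      simp_all
  -- the difference of the shifted sequences vanishes
  have hvan : ∀ t, t ≤ i → ∀ n, u (n + (i - t)) = u (n + (j - t)) := by
    intro t
    induction t with
    | zero =>
      intro _
      have : (fun n => u (n + i) - u (n + j)) = 0 := by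
        refine vanish hp ?_ ?_
        · have e : (fun n => u (n + i) - u (n + j)) = (fun n => u (n + i)) - fun n => u (n + j) := rfl
          rw [e, map_sub, T_shift, T_shift, hT]; simp
        · intro n hn
          have := hinit n hn
          rw [add_comm i n, add_comm j n] at this
          simp [this]
      intro n
      have := congrFun this n
      simpa [sub_eq_zero] using this
    | succ t ih =>
      intro ht n
      have ih' := ih (by omega)
      rcases Nat.eq_zero_or_pos n with hn | hn
      · subst hn
        rw [zero_add, zero_add]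
        have e1 : T p u (i - (t + 1)) = 0 := by rw [hT]; rfl
        have e2 : T p u (j - (t + 1)) = 0 := by rw [hT]; rfl
        rw [T_apply, Finset.sum_range_succ'] at e1 e2
        have e3 : ∀ k, u (i - (t + 1) + (k + 1)) = u (j - (t + 1) + (k + 1)) := by
          intro k
          have := ih' k
          rw [show i - (t + 1) + (k + 1) = k + (i - t) by omega,
            show j - (t + 1) + (k + 1) = k + (j - t) by omega]
          exact this
        simp only [e3] at e1
        have e4 : p.coeff 0 * u (i - (t + 1) + 0) = p.coeff 0 * u (j - (t + 1) + 0) := by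
          rw [← e2] at e1
          exact add_left_cancel e1
        simpa [hp0] using e4
      · have := ih' (n - 1)
        rw [show n + (i - (t + 1)) = n - 1 + (i - t) by omega,
          show n + (j - (t + 1)) = n - 1 + (j - t) by omega]
        exact this
  refine ⟨j - i, by omega, fun n => ?_⟩
  have := hvan i le_rfl n
  simpa using this.symm

end Pool.Agent.Lib_helper10.LogRank
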