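import Mathlib
import Pool.Agent.Lib_helper10.LogRank.Seq

set_option autoImplicit false
set_option linter.unusedSectionVars false

/-! One-dimensional Hankel matrices of low rank. -/

namespace Pool.Agent.Lib_helper10.LogRank

open Finset Polynomial

/-- the rank does not drop under field extension (square matrices) -/
theorem rank_le_rank_map {K L : Type*} [Field K] [Field L] (φ : K →+* L) {m : Type*} [Fintype m]
    [DecidableEq m] (M : Matrix m m K) : M.rank ≤ (M.map φ).rank := by
  obtain ⟨V, U, e, _, _, h⟩ := Matrix.exists_rank_normal_form M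
  have h' : (V.map φ) * (M.map φ) * (U.map φ)
      = (Matrix.fromBlocks (1 : Matrix (Fin M.rank) (Fin M.rank) L) 0 0 0).submatrix e e := by
    rw [← Matrix.map_mul, ← Matrix.map_mul, h]
    ext i j
    simp only [Matrix.map_apply, Matrix.submatrix_apply]
    rcases e i with a | a <;> rcases e j with b | b <;> simp [Matrix.one_apply, apply_ite φ]
  calc M.rank = (1 : Matrix (Fin M.rank) (Fin M.rank) L).rank := by rw [Matrix.rank_one]; simp
    _ = (((Matrix.fromBlocks (1 : Matrix (Fin M.rank) (Fin M.rank) L) 0 0 0).submatrix e e).submatrix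
          (fun i => e.symm (Sum.inl i)) (fun i => e.symm (Sum.inl i))).rank := by
        congr 1
        ext i j
        simp
    _ ≤ ((Matrix.fromBlocks (1 : Matrix (Fin M.rank) (Fin M.rank) L) 0 0 0).submatrix e e).rank :=
        Matrix.rank_submatrix_le _ _ _
    _ = ((V.map φ) * (M.map φ) * (U.map φ)).rank := by rw [h']
    _ ≤ ((V.map φ) * (M.map φ)).rank := Matrix.rank_mul_le_left _ _
    _ ≤ (M.map φ).rank := Matrix.rank_mul_le_right _ _

variable {K : Type*} [Field K]

/-- The kernel lemma: a Hankel matrix `[s(a+b)]_{a,b<N}` of rank `≤ r < N` gives a nonzero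
recurrence polynomial of degree `≤ r` valid on `[0, 2N-2-r]`. -/
theorem hankel_kernel {s : ℕ → K} {N r : ℕ} (hr : r < N)
    (hrank : (Matrix.of fun (a b : Fin N) => s (a + b)).rank ≤ r) :
    ∃ q : K[X], q ≠ 0 ∧ q.natDegree ≤ r ∧ ∀ n, n + r ≤ 2 * N - 2 → T q s n = 0 := by
  classical
  set H : Matrix (Fin N) (Fin N) K := Matrix.of fun (a b : Fin N) => s (a + b) with hH
  -- polynomial attached to a vector
  let P : (Fin N → K) →ₗ[K] K[X] := (degreeLT K N).subtype ∘ₗ (degreeLTEquiv K N).symm.toLinearMap
  have hPdeg : ∀ u, (P u).degree < N := by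
    intro u
    have := ((degreeLTEquiv K N).symm u).2
    exact mem_degreeLT.1 this
  have hPnat : ∀ u, (P u).natDegree < N := by
    intro u
    by_cases h : P u = 0
    · rw [h]; simp; omega
    · exact (Polynomial.natDegree_lt_iff_degree_lt h).2 (hPdeg u)
  have hPinj : Function.Injective P := by
    intro u v huv
    have : (degreeLTEquiv K N).symm u = (degreeLTEquiv K N).symm v := Subtype.ext huv
    exact (degreeLTEquiv K N).symm.injective this
  have hPcoeff : ∀ u (a : Fin N), (P u).coeff a = u a := by
    intro u a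
    have h1 : degreeLTEquiv K N ((degreeLTEquiv K N).symm u) = u := LinearEquiv.apply_symm_apply _ _
    have h2 : degreeLTEquiv K N ((degreeLTEquiv K N).symm u) a
        = ((degreeLTEquiv K N).symm u : K[X]).coeff a := rfl
    exact h2.symm.trans (congrFun h1 a)
  have hTP : ∀ u n, T (P u) s n = ∑ a : Fin N, u a * s (n + a) := by
    intro u n
    rw [T_apply' (P u) (hPnat u), Finset.sum_range]
    exact Finset.sum_congr rfl fun a _ => by rw [hPcoeff]
  let K1 : Submodule K (Fin N → K) := LinearMap.ker H.mulVecLin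
  have hK1 : ∀ u ∈ K1, ∀ n, n < N → T (P u) s n = 0 := by
    intro u hu n hn
    have h1 : H.mulVec u = 0 := by simpa [K1] using hu
    have h2 := congrFun h1 ⟨n, hn⟩
    rw [hTP]
    simp only [Matrix.mulVec, dotProduct, hH, Matrix.of_apply, Pi.zero_apply] at h2
    rw [← h2]
    exact Finset.sum_congr rfl fun a _ => mul_comm _ _
  have hfin : N - r ≤ Module.finrank K K1 := by
    have h1 := LinearMap.finrank_range_add_finrank_ker H.mulVecLin
    simp only [Module.finrank_fintype_fun_eq_card, Fintype.card_fin] at h1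
    have h2 : Module.finrank K (LinearMap.range H.mulVecLin) ≤ r := hrank
    have h3 : Module.finrank K K1 = Module.finrank K (LinearMap.ker H.mulVecLin) := rfl
    omega
  have hne : ∃ u ∈ K1, u ≠ 0 := by
    by_contra hcon
    push Not at hcon
    have : K1 = ⊥ := by
      rw [Submodule.eq_bot_iff]; exact hcon
    rw [this] at hfin
    simp at hfin
    omega
  -- minimal degree
  have hex : ∃ δ, ∃ u ∈ K1, u ≠ 0 ∧ (P u).natDegree = δ := by
    obtain ⟨u, hu, hu0⟩ := hne
    exact ⟨_, u, hu, hu0, rfl⟩
  let δ := Nat.find hex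
  obtain ⟨u₀, hu₀, hu₀0, hδ⟩ := Nat.find_spec hex
  have hmin : ∀ u ∈ K1, u ≠ 0 → δ ≤ (P u).natDegree := fun u hu hu0 =>
    Nat.find_min' hex ⟨u, hu, hu0, rfl⟩
  set q := P u₀ with hq
  have hq0 : q ≠ 0 := by
    intro h
    apply hu₀0
    apply hPinj
    rw [← hq, h, map_zero]
  have hqδ : q.natDegree = δ := hδ
  have hδN : δ < N := by rw [← hqδ]; exact hPnat u₀
  -- dimension bound
  have hdim : ∀ t, (∀ u ∈ K1, u ≠ 0 → (P u).natDegree < δ + t) → N - r ≤ t := by
    intro t ht
    refine hfin.trans ?_
    let F : K1 →ₗ[K] (Fin t → K) := LinearMap.pi fun j =>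
      (Polynomial.lcoeff K (δ + j)) ∘ₗ P ∘ₗ K1.subtype
    have hF : Function.Injective F := by
      rw [← LinearMap.ker_eq_bot, LinearMap.ker_eq_bot']
      intro u hu
      by_contra hne
      have hne' : (u : Fin N → K) ≠ 0 := fun h => hne (Subtype.ext h)
      have h1 := hmin u u.2 hne'
      have h2 := ht u u.2 hne'
      have h3 : (P u).coeff ((P u).natDegree) ≠ 0 := by
        rw [Polynomial.coeff_natDegree, Ne, Polynomial.leadingCoeff_eq_zero]
        intro h
        apply hne'
        apply hPinj
        rw [h, map_zero]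
      have h4 := congrFun hu ⟨(P u).natDegree - δ, by omega⟩
      simp only [F, LinearMap.pi_apply, LinearMap.comp_apply, Submodule.subtype_apply,
        Polynomial.lcoeff_apply, Pi.zero_apply] at h4
      rw [show δ + ((P u).natDegree - δ) = (P u).natDegree by omega] at h4
      exact h3 h4
    have := LinearMap.finrank_le_finrank_of_injective hF
    simpa using this
  have hv0 : ∀ n, n < N → T q s n = 0 := hK1 u₀ hu₀
  by_cases hcase : ∃ n, n + δ ≤ 2 * N - 2 ∧ T q s n ≠ 0
  · -- Case B
    classical
    let s₀ := Nat.find hcase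
    obtain ⟨hs1, hs2⟩ : s₀ + δ ≤ 2 * N - 2 ∧ T q s s₀ ≠ 0 := Nat.find_spec hcase
    have hs3 : ∀ n, n < s₀ → T q s n = 0 := by
      intro n hn
      by_contra h
      exact Nat.find_min hcase hn ⟨by omega, h⟩
    have hs4 : N ≤ s₀ := by
      by_contra h
      exact hs2 (hv0 s₀ (by omega))
    have hdeg : ∀ u ∈ K1, u ≠ 0 → (P u).natDegree < δ + (s₀ - N + 1) := by
      intro u hu hu0
      by_contra hcon
      set e := (P u).natDegree with he
      have heN : e < N := hPnat u
      have h1 : T (P u) (T q s) (s₀ - e) = (P u).coeff e * T q s s₀ := by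
        rw [T_apply, Finset.sum_range_succ]
        rw [Finset.sum_eq_zero, zero_add, show s₀ - e + (P u).natDegree = s₀ by omega]
        intro j hj
        have := Finset.mem_range.1 hj
        rw [hs3 _ (by omega), mul_zero]
      have h2 : T q (T (P u) s) (s₀ - e) = 0 := by
        rw [T_apply]
        refine Finset.sum_eq_zero fun j hj => ?_
        have := Finset.mem_range.1 hj
        rw [hK1 u hu _ (by omega), mul_zero]
      rw [T_comm, h2] at h1
      have h3 : (P u).coeff e ≠ 0 := by
        rw [he, Polynomial.coeff_natDegree, Ne, Polynomial.leadingCoeff_eq_zero]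
        intro h
        apply hu0
        apply hPinj
        rw [h, map_zero]
      exact mul_ne_zero h3 hs2 h1.symm
    have := hdim _ hdeg
    refine ⟨q, hq0, by omega, fun n hn => hs3 n (by omega)⟩
  · push Not at hcase
    have := hdim (N - δ) (fun u _ _ => by have := hPnat u; omega)
    refine ⟨q, hq0, by omega, fun n hn => hcase n (by omega)⟩

end Pool.Agent.Lib_helper10.LogRank
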