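import Mathlib
import Pool.Agent.Lib_helper10.LogRank.Hankel

set_option autoImplicit false
set_option linter.unusedSectionVars false

/-! Cyclotomic part: the universal recurrence. -/

namespace Pool.Agent.Lib_helper10.LogRank

open Finset Polynomial

theorem totient_facts (m : ℕ) (hm : 0 < m) :
    (m ≤ 2 * m.totient ^ 2 ∧ 2 ^ m.primeFactors.card ≤ 2 * m.totient) ∧
      (Odd m → m ≤ m.totient ^ 2 ∧ 2 ^ m.primeFactors.card ≤ m.totient) := by
  induction m using Nat.recOnPosPrimePosCoprime with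
  | prime_pow p n hp hn =>
    obtain ⟨k, rfl⟩ : ∃ k, n = k + 1 := ⟨n - 1, by omega⟩
    have hcard : (p ^ (k + 1)).primeFactors.card = 1 := by
      rw [Nat.primeFactors_prime_pow (by omega) hp]; simp
    rw [Nat.totient_prime_pow_succ hp, hcard]
    obtain ⟨c, rfl⟩ : ∃ c, p = c + 1 := ⟨p - 1, by have := hp.pos; omega⟩
    have hc : 1 ≤ c := by have := hp.two_le; omega
    simp only [Nat.add_sub_cancel]
    have hk : 1 ≤ (c + 1) ^ k := Nat.one_le_pow _ _ (by omega)
    refine ⟨⟨?_, ?_⟩, ?_⟩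
    · have h1 : c + 1 ≤ 2 * c ^ 2 := by nlinarith
      calc (c + 1) ^ (k + 1) = (c + 1) ^ k * (c + 1) := by ring
        _ ≤ ((c + 1) ^ k * (c + 1) ^ k) * (2 * c ^ 2) :=
          Nat.mul_le_mul (Nat.le_mul_of_pos_right _ (by omega)) h1
        _ = 2 * ((c + 1) ^ k * c) ^ 2 := by ring
    · nlinarith
    · intro hodd
      have hodd' : Odd (c + 1) := (Nat.odd_pow_iff (by omega)).1 hodd
      have hc2 : 2 ≤ c := by
        rcases Nat.lt_or_ge c 2 with h | h
        · have : c = 1 := by omega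
          subst this
          exact absurd hodd' (by decide)
        · exact h
      refine ⟨?_, ?_⟩
      · have h1 : c + 1 ≤ c ^ 2 := by nlinarith
        calc (c + 1) ^ (k + 1) = (c + 1) ^ k * (c + 1) := by ring
          _ ≤ ((c + 1) ^ k * (c + 1) ^ k) * (c ^ 2) :=
            Nat.mul_le_mul (Nat.le_mul_of_pos_right _ (by omega)) h1
          _ = ((c + 1) ^ k * c) ^ 2 := by ring
      · nlinarith
  | zero => omega
  | one => simp
  | coprime a b ha hb hab iha ihb =>
    obtain ⟨⟨a1, a2⟩, a3⟩ := iha (by omega)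
    obtain ⟨⟨b1, b2⟩, b3⟩ := ihb (by omega)
    have hcard : (a * b).primeFactors.card = a.primeFactors.card + b.primeFactors.card := by
      rw [hab.primeFactors_mul, Finset.card_union_of_disjoint hab.disjoint_primeFactors]
    rw [Nat.totient_mul hab, hcard, pow_add]
    have key : ∀ {x y u v u' v' : ℕ}, x ≤ u ^ 2 → y ≤ 2 * v ^ 2 → u' ≤ u → v' ≤ 2 * v →
        x * y ≤ 2 * (u * v) ^ 2 ∧ u' * v' ≤ 2 * (u * v) := by
      intro x y u v u' v' h1 h2 h3 h4
      constructor
      · calc x * y ≤ u ^ 2 * (2 * v ^ 2) := Nat.mul_le_mul h1 h2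
          _ = _ := by ring
      · calc u' * v' ≤ u * (2 * v) := Nat.mul_le_mul h3 h4
          _ = _ := by ring
    refine ⟨?_, ?_⟩
    · rcases Nat.even_or_odd a with hae | hao
      · have hbo : Odd b := by
          rcases Nat.even_or_odd b with h | h
          · exfalso
            have h2 : 2 ∣ Nat.gcd a b := Nat.dvd_gcd hae.two_dvd h.two_dvd
            rw [hab] at h2
            omega
          · exact h
        have := key (b3 hbo).1 a1 (b3 hbo).2 a2
        constructor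
        · calc a * b = b * a := by ring
            _ ≤ _ := this.1
            _ = _ := by ring
        · calc 2 ^ a.primeFactors.card * 2 ^ b.primeFactors.card
              = 2 ^ b.primeFactors.card * 2 ^ a.primeFactors.card := by ring
            _ ≤ _ := this.2
            _ = _ := by ring
      · exact key (a3 hao).1 b1 (a3 hao).2 b2
    · intro hodd
      rw [Nat.odd_mul] at hodd
      obtain ⟨a4, a5⟩ := a3 hodd.1
      obtain ⟨b4, b5⟩ := b3 hodd.2
      constructor
      · calc a * b ≤ a.totient ^ 2 * b.totient ^ 2 := Nat.mul_le_mul a4 b4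
          _ = _ := by ring
      · exact Nat.mul_le_mul a5 b5

theorem card_primeFactors_le {m r : ℕ} (hm : 0 < m) (hr : m.totient ≤ r) :
    m.primeFactors.card ≤ Nat.log 2 r + 1 := by
  have h1 := (totient_facts m hm).1.2
  have hpos : 0 < m.totient := Nat.totient_pos.2 hm
  have h2 : 2 ^ m.primeFactors.card ≤ 2 * r := h1.trans (by omega)
  have h3 : r < 2 ^ (Nat.log 2 r + 1) := Nat.lt_pow_succ_log_self (by norm_num) r
  have h4 : 2 ^ m.primeFactors.card < 2 ^ (Nat.log 2 r + 2) := by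
    calc 2 ^ m.primeFactors.card ≤ 2 * r := h2
      _ < 2 * 2 ^ (Nat.log 2 r + 1) := by omega
      _ = _ := by ring
  have := (Nat.pow_lt_pow_iff_right (by norm_num : 1 < 2)).1 h4
  omega

theorem prime_pow_le {m r p e : ℕ} (hm : 0 < m) (hr : m.totient ≤ r) (hp : p.Prime)
    (hd : p ^ e ∣ m) : p ^ e ≤ 2 * r := by
  have h1 : (p ^ e).totient ≤ m.totient :=
    Nat.le_of_dvd (Nat.totient_pos.2 hm) (Nat.totient_dvd_of_dvd hd)
  have h2 : p ^ e ≤ 2 * (p ^ e).totient := by
    rcases e with _ | k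
    · simp
    · rw [Nat.totient_prime_pow_succ hp, pow_succ]
      have := hp.two_le
      have h3 : p ≤ 2 * (p - 1) := by omega
      calc p ^ k * p ≤ p ^ k * (2 * (p - 1)) := Nat.mul_le_mul_left _ h3
        _ = _ := by ring
  omega

/-- the set of `m` with `φ(m) ≤ r` -/
def MM (r : ℕ) : Finset ℕ := (Finset.Icc 1 (2 * r ^ 2)).filter fun m => m.totient ≤ r

theorem mem_MM {r m : ℕ} : m ∈ MM r ↔ 0 < m ∧ m.totient ≤ r := by
  simp only [MM, mem_filter, mem_Icc]
  constructor
  · rintro ⟨⟨h1, _⟩, h2⟩; exact ⟨h1, h2⟩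
  · rintro ⟨h1, h2⟩
    refine ⟨⟨h1, ((totient_facts m h1).1.1).trans ?_⟩, h2⟩
    exact Nat.mul_le_mul_left _ (Nat.pow_le_pow_left h2 2)

/-- the universal recurrence polynomial -/
noncomputable def Psi (r : ℕ) (K : Type*) [Field K] : K[X] := ∏ m ∈ MM r, cyclotomic m K

theorem Psi_monic (r : ℕ) (K : Type*) [Field K] : (Psi r K).Monic :=
  monic_prod_of_monic _ _ fun m _ => cyclotomic.monic m K

theorem Psi_natDegree (r : ℕ) (K : Type*) [Field K] : (Psi r K).natDegree ≤ 2 * r ^ 3 := by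
  unfold Psi
  rw [natDegree_prod_of_monic _ _ fun m _ => cyclotomic.monic m K]
  calc ∑ m ∈ MM r, (cyclotomic m K).natDegree ≤ ∑ _m ∈ MM r, r := by
        refine Finset.sum_le_sum fun m hm => ?_
        rw [natDegree_cyclotomic]
        exact (mem_MM.1 hm).2
    _ = (MM r).card * r := by rw [Finset.sum_const, smul_eq_mul]
    _ ≤ (2 * r ^ 2) * r := by
        refine Nat.mul_le_mul_right _ ?_
        calc (MM r).card ≤ (Finset.Icc 1 (2 * r ^ 2)).card := Finset.card_filter_le _ _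
          _ = 2 * r ^ 2 := by simp
    _ = 2 * r ^ 3 := by ring

theorem Psi_map {K L : Type*} [Field K] [Field L] (φ : K →+* L) (r : ℕ) :
    (Psi r K).map φ = Psi r L := by
  unfold Psi
  rw [Polynomial.map_prod]
  exact Finset.prod_congr rfl fun m _ => map_cyclotomic m φ

theorem T_map {K L : Type*} [Field K] [Field L] (φ : K →+* L) (p : K[X]) (s : ℕ → K) (n : ℕ) :
    T (p.map φ) (fun n => φ (s n)) n = φ (T p s n) := by
  rw [T_apply' (p.map φ) (N := p.natDegree + 1)
    (Nat.lt_succ_of_le (Polynomial.natDegree_map_le)), T_apply, map_sum]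
  refine Finset.sum_congr rfl fun j _ => ?_
  rw [coeff_map, map_mul]

/-- rational periodic sequences with a recurrence of order `≤ r` satisfy the universal one -/
theorem T_Psi_eq_zero {p : ℚ[X]} {r P : ℕ} (hp0 : p ≠ 0) (hpr : p.natDegree ≤ r) (hP : 0 < P)
    {u : ℕ → ℚ} (hT : T p u = 0) (hper : ∀ n, u (n + P) = u n) : T (Psi r ℚ) u = 0 := by
  classical
  set g : ℚ[X] := EuclideanDomain.gcd p (X ^ P - 1) with hg
  have hTg : T g u = 0 := by
    rw [hg, EuclideanDomain.gcd_eq_gcd_ab, T_add, mul_comm p, T_mul, hT, map_zero,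
      mul_comm (X ^ P - 1 : ℚ[X]), T_mul]
    have : T (X ^ P - 1 : ℚ[X]) u = 0 := by
      funext n; rw [T_X_pow_sub_one, hper]; simp
    rw [this, map_zero, add_zero]
  have hgp : g ∣ p := EuclideanDomain.gcd_dvd_left _ _
  have hg0 : g ≠ 0 := fun h => hp0 (by rw [h] at hgp; exact zero_dvd_iff.1 hgp)
  have hgdeg : g.natDegree ≤ r := (natDegree_le_of_dvd hgp hp0).trans hpr
  have hgX : g ∣ ∏ m ∈ P.divisors, cyclotomic m ℚ := by
    rw [prod_cyclotomic_eq_X_pow_sub_one hP]
    exact EuclideanDomain.gcd_dvd_right _ _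
  rw [← Finset.prod_filter_mul_prod_filter_not P.divisors (fun m => m.totient ≤ r)] at hgX
  have hcop : IsCoprime g (∏ m ∈ P.divisors with ¬ m.totient ≤ r, cyclotomic m ℚ) := by
    refine IsCoprime.prod_right fun m hm => ?_
    simp only [mem_filter, Nat.mem_divisors] at hm
    have hmpos : 0 < m := Nat.pos_of_dvd_of_pos hm.1.1 hP
    have hirr : Irreducible (cyclotomic m ℚ) := cyclotomic.irreducible_rat hmpos
    refine IsCoprime.symm ((hirr.coprime_iff_not_dvd).2 fun hd => hm.2 ?_)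
    have := natDegree_le_of_dvd hd hg0
    rw [natDegree_cyclotomic] at this
    exact this.trans hgdeg
  have hg1 : g ∣ ∏ m ∈ P.divisors with m.totient ≤ r, cyclotomic m ℚ :=
    hcop.dvd_of_dvd_mul_right hgX
  have hg2 : g ∣ Psi r ℚ := by
    refine hg1.trans (Finset.prod_dvd_prod_of_subset _ _ _ fun m hm => ?_)
    simp only [mem_filter, Nat.mem_divisors] at hm
    exact mem_MM.2 ⟨Nat.pos_of_dvd_of_pos hm.1.1 hP, hm.2⟩
  exact T_zero_of_dvd hg2 hTg

/-- One-dimensional structure theorem. -/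
theorem hankel_Psi {s : ℕ → Bool} {N r : ℕ} (hr : r < N) (hN : r ^ 2 + 3 * r + 1 ≤ 2 * N)
    (hrank : (Matrix.of fun (a b : Fin N) => if s (a + b) then (1 : ℝ) else 0).rank ≤ r) :
    ∀ n, n + (Psi r ℝ).natDegree < 2 * N - 1 - 2 * r →
      T (Psi r ℝ) (fun n => if s (r + n) then (1 : ℝ) else 0) n = 0 := by
  classical
  let sQ : ℕ → ℚ := fun n => if s n then 1 else 0
  have hrankQ : (Matrix.of fun (a b : Fin N) => sQ (a + b)).rank ≤ r := by
    refine (rank_le_rank_map (algebraMap ℚ ℝ) _).trans ?_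
    refine le_trans (le_of_eq ?_) hrank
    congr 1
    ext a b
    simp only [Matrix.map_apply, Matrix.of_apply, sQ]
    split_ifs <;> simp
  obtain ⟨q, hq0, hqr, hq⟩ := hankel_kernel hr hrankQ
  -- remove the power of X and normalise
  obtain ⟨e, q₁, hq₁, hqe⟩ : ∃ e, ∃ q₁ : ℚ[X], ¬ X ∣ q₁ ∧ q = X ^ e * q₁ :=
    (FiniteMultiplicity.of_not_isUnit Polynomial.not_isUnit_X hq0).exists_eq_pow_mul_and_not_dvd
      |>.imp' (fun c => _) fun c hc => ⟨c, hc.2, hc.1⟩
  have hq₁0 : q₁ ≠ 0 := by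
    rintro rfl; exact hq₁ (dvd_zero _)
  have hdeg : q.natDegree = e + q₁.natDegree := by
    rw [hqe, natDegree_mul (pow_ne_zero _ X_ne_zero) hq₁0, natDegree_X_pow]
  set q₂ : ℚ[X] := C (q₁.leadingCoeff⁻¹) * q₁ with hq₂
  have hlc : q₁.leadingCoeff ≠ 0 := leadingCoeff_ne_zero.2 hq₁0
  have hq₂m : q₂.Monic := by
    rw [hq₂, mul_comm]
    exact monic_mul_leadingCoeff_inv hq₁0
  have hq₂deg : q₂.natDegree = q₁.natDegree := by
    rw [hq₂, natDegree_C_mul (inv_ne_zero hlc)]
  have hq₂0 : q₂.coeff 0 ≠ 0 := by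
    rw [hq₂, coeff_C_mul]
    refine mul_ne_zero (inv_ne_zero hlc) ?_
    intro h
    exact hq₁ (X_dvd_iff.2 h)
  let t : ℕ → ℚ := fun n => sQ (n + r)
  have hTt : ∀ n, n + q₂.natDegree < 2 * N - 1 - 2 * r → T q₂ t n = 0 := by
    intro n hn
    have h1 : T q₂ t n = T q₂ sQ (n + r) := by
      have := congrFun (T_shift q₂ sQ r) n
      exact this
    have h2 : T q₂ sQ = T (C (q₁.leadingCoeff⁻¹)) (T q₁ sQ) := by rw [hq₂, T_mul]
    have h3 : ∀ (c : ℚ) (v : ℕ → ℚ) (m : ℕ), T (C c) v m = c * v m := by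
      intro c v m
      simp [T, Module.algebraMap_end_apply]
    have h4 : T q₁ sQ (n + r) = T q sQ (n + r - e) := by
      have h5 : T q sQ (n + r - e) = T q₁ sQ (n + r - e + e) := by
        rw [hqe, T_mul, T_X_pow]
      rw [h5, Nat.sub_add_cancel (by omega)]
    rw [h1, h2, h3, h4, hq _ (by omega), mul_zero]
  set u := ext q₂ t with hu
  have hTu : T q₂ u = 0 := T_ext hq₂m t
  have hut : ∀ n, n < 2 * N - 1 - 2 * r → u n = t n := ext_window hq₂m hTt
  have hq₂r : q₂.natDegree ≤ r := by omega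
  have hubool : ∀ n, u n = 0 ∨ u n = 1 := by
    refine bool_transfer hq₂m hTu fun n hn => ?_
    have h1 : q₂.natDegree ^ 2 ≤ r ^ 2 := Nat.pow_le_pow_left hq₂r 2
    have h5 : n < r ^ 2 + r := lt_of_lt_of_le hn (Nat.add_le_add h1 hq₂r)
    rw [hut n (by omega)]
    simp only [t, sQ]
    split_ifs <;> simp
  obtain ⟨P, hP, hper⟩ := periodic_of_bool hq₂m hq₂0 hTu hubool
  have hPsi : T (Psi r ℚ) u = 0 := T_Psi_eq_zero hq₂m.ne_zero hq₂r hP hTu hper
  intro n hn
  have hdegQ : (Psi r ℝ).natDegree = (Psi r ℚ).natDegree := by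
    rw [← Psi_map (algebraMap ℚ ℝ), natDegree_map]
  have h1 : T (Psi r ℚ) t n = 0 := by
    have h2 : T (Psi r ℚ) u n = 0 := by rw [hPsi]; rfl
    rw [← h2, T_apply, T_apply]
    refine Finset.sum_congr rfl fun j hj => ?_
    have := Finset.mem_range.1 hj
    rw [hut (n + j) (by omega)]
  have h2 := T_map (algebraMap ℚ ℝ) (Psi r ℚ) t n
  rw [h1, map_zero, Psi_map] at h2
  refine Eq.trans ?_ h2
  have h6 : (fun n => if s (r + n) then (1 : ℝ) else 0) = fun n => (algebraMap ℚ ℝ) (t n) := by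
    funext m
    simp only [t, sQ, add_comm m r]
    split_ifs <;> simp
  rw [h6]

end Pool.Agent.Lib_helper10.LogRank
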