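import Mathlib
import Pool.Agent.Lib_helper10.LogRank.Cyclo
import Pool.Agent.Lib_helper10.LogRank.LowDeg

set_option autoImplicit false
set_option linter.unusedSectionVars false

/-! Multi-dimensional extension and decomposition. -/

namespace Pool.Agent.Lib_helper10.LogRank

open Finset Polynomial

variable {κ : Type*} [Fintype κ] [DecidableEq κ]

/-- the restriction of `f` to the line through `z` in direction `i` -/
def line (f : (κ → ℕ) → ℝ) (z : κ → ℕ) (i : κ) : ℕ → ℝ := fun n => f (Function.update z i n)

theorem line_update (f : (κ → ℕ) → ℝ) (z : κ → ℕ) (i : κ) (n : ℕ) :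
    line f (Function.update z i n) i = line f z i := by
  funext m; simp [line]

theorem line_self (f : (κ → ℕ) → ℝ) (z : κ → ℕ) (i : κ) : line f z i (z i) = f z := by
  simp [line]

/-- extension step: one direction -/
noncomputable def extDir (p : ℝ[X]) (i₀ : κ) (g : (κ → ℕ) → ℝ) : (κ → ℕ) → ℝ :=
  fun z => ext p (line g z i₀) (z i₀)

theorem line_extDir_self (p : ℝ[X]) (i₀ : κ) (g : (κ → ℕ) → ℝ) (z : κ → ℕ) :
    line (extDir p i₀ g) z i₀ = ext p (line g z i₀) := by
  funext n
  simp only [line, extDir, Function.update_self]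
  congr 1
  exact line_update g z i₀ n

theorem line_extDir_ne (p : ℝ[X]) (i₀ : κ) (g : (κ → ℕ) → ℝ) (z : κ → ℕ) {i : κ} (hi : i ≠ i₀) :
    line (extDir p i₀ g) z i
      = ∑ j ∈ Finset.range p.natDegree, kap p (z i₀) j • line g (Function.update z i₀ j) i := by
  funext n
  simp only [line, extDir, ext, Finset.sum_apply, Pi.smul_apply, smul_eq_mul]
  rw [Function.update_of_ne (Ne.symm hi)]
  refine Finset.sum_congr rfl fun j _ => ?_
  rw [Function.update_comm hi]

theorem extension {p : ℝ[X]} (hp : p.Monic) {w : κ → ℕ}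
    (hw : ∀ i, p.natDegree ^ 2 + p.natDegree ≤ w i) {f : (κ → ℕ) → ℝ}
    (hb : ∀ z, (∀ i, z i < w i) → f z = 0 ∨ f z = 1)
    (hrec : ∀ i z, (∀ j, j ≠ i → z j < w j) → ∀ n, n + p.natDegree < w i →
      T p (line f z i) n = 0) :
    ∃ g : (κ → ℕ) → ℝ, (∀ z, g z = 0 ∨ g z = 1) ∧ (∀ i z, T p (line g z i) = 0) ∧
      ∀ z, (∀ i, z i < w i) → g z = f z := by
  classical
  have hD : ∀ i, p.natDegree ≤ w i := fun i => le_trans (Nat.le_add_left _ _) (hw i)
  have key : ∀ P : Finset κ, ∃ g : (κ → ℕ) → ℝ,
      (∀ z, (∀ i, i ∉ P → z i < w i) → g z = 0 ∨ g z = 1) ∧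
      (∀ i, i ∈ P → ∀ z, (∀ j, j ∉ P → z j < w j) → T p (line g z i) = 0) ∧
      (∀ i, i ∉ P → ∀ z, (∀ j, j ∉ P → j ≠ i → z j < w j) → ∀ n, n + p.natDegree < w i →
        T p (line g z i) n = 0) ∧
      (∀ z, (∀ i, z i < w i) → g z = f z) := by
    intro P
    induction P using Finset.induction_on with
    | empty =>
      refine ⟨f, fun z hz => hb z fun i => hz i (by simp), fun i hi => absurd hi (by simp),
        fun i _ z hz n hn => hrec i z (fun j hj => hz j (by simp) hj) n hn, fun z _ => rfl⟩
    | insert i₀ P hi₀ ih =>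
      obtain ⟨g, hgb, hgc, hgd, hge⟩ := ih
      refine ⟨extDir p i₀ g, ?_, ?_, ?_, ?_⟩
      · intro z hz
        have hagree : ∀ n, n < w i₀ → line (extDir p i₀ g) z i₀ n = line g z i₀ n := by
          intro n hn
          rw [line_extDir_self]
          refine ext_window hp (w := w i₀) (fun m hm => ?_) n hn
          exact hgd i₀ hi₀ z (fun j hj hji => hz j (by simp [hj, hji])) m hm
        have hbool : ∀ n, line (extDir p i₀ g) z i₀ n = 0 ∨ line (extDir p i₀ g) z i₀ n = 1 := by
          refine bool_transfer hp ?_ fun n hn => ?_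
          · rw [line_extDir_self]; exact T_ext hp _
          · rw [hagree n (lt_of_lt_of_le hn (hw i₀))]
            refine hgb _ fun i hi => ?_
            by_cases h : i = i₀
            · subst h; simp only [Function.update_self]; exact lt_of_lt_of_le hn (hw _)
            · rw [Function.update_of_ne h]; exact hz i (by simp [hi, h])
        have := hbool (z i₀)
        rwa [line_self] at this
      · intro i hi z hz
        by_cases h : i = i₀
        · subst h; rw [line_extDir_self]; exact T_ext hp _
        · have hiP : i ∈ P := by simpa [h] using hi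
          rw [line_extDir_ne p i₀ g z h, map_sum]
          refine Finset.sum_eq_zero fun j hj => ?_
          rw [map_smul, hgc i hiP, smul_zero]
          intro l hl
          by_cases hl' : l = i₀
          · subst hl'; simp only [Function.update_self]
            exact lt_of_lt_of_le (Finset.mem_range.1 hj) (hD _)
          · rw [Function.update_of_ne hl']; exact hz l (by simp [hl, hl'])
      · intro i hi z hz n hn
        have h : i ≠ i₀ := fun h => hi (by simp [h])
        have hiP : i ∉ P := fun h => hi (by simp [h])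
        rw [line_extDir_ne p i₀ g z h, map_sum, Finset.sum_apply]
        refine Finset.sum_eq_zero fun j hj => ?_
        rw [map_smul, Pi.smul_apply, hgd i hiP _ _ n hn, smul_zero]
        intro l hl hli
        by_cases hl' : l = i₀
        · subst hl'; simp only [Function.update_self]
          exact lt_of_lt_of_le (Finset.mem_range.1 hj) (hD _)
        · rw [Function.update_of_ne hl']; exact hz l (by simp [hl, hl']) hli
      · intro z hz
        rw [← line_self (extDir p i₀ g) z i₀, line_extDir_self]
        rw [ext_window hp (w := w i₀) _ _ (hz i₀), line_self]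
        · exact hge z hz
        · intro m hm
          exact hgd i₀ hi₀ z (fun j _ _ => hz j) m hm
  obtain ⟨g, h1, h2, _, h4⟩ := key Finset.univ
  exact ⟨g, fun z => h1 z (by simp), fun i z => h2 i (by simp) z (by simp), h4⟩

/-- partition of unity for a product of distinct cyclotomic polynomials -/
theorem exists_partition' (t : Finset ℕ) (hne : t.Nonempty) : ∃ e : ℕ → ℝ[X],
    (∑ m ∈ t, e m = 1) ∧ ∀ m ∈ t, (∏ j ∈ t, cyclotomic j ℝ) ∣ (X ^ m - 1) * e m := by
  have hcop : Pairwise (Function.onFun IsCoprime fun m : t => cyclotomic (m : ℕ) ℝ) := by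
    intro a b hab
    have h1 : IsCoprime (cyclotomic (a : ℕ) ℚ) (cyclotomic (b : ℕ) ℚ) :=
      cyclotomic.isCoprime_rat fun h => hab (Subtype.ext h)
    have h2 := h1.map (Polynomial.mapRingHom (algebraMap ℚ ℝ))
    rw [Polynomial.coe_mapRingHom, map_cyclotomic, map_cyclotomic] at h2
    exact h2
  obtain ⟨μ, hμ⟩ := (exists_sum_eq_one_iff_pairwise_coprime
    (s := fun m : ℕ => cyclotomic m ℝ) hne).2 hcop
  refine ⟨fun m => μ m * ∏ j ∈ t \ {m}, cyclotomic j ℝ, hμ, fun m hm => ?_⟩
  have h1 : (cyclotomic m ℝ) ∣ (X ^ m - 1 : ℝ[X]) := cyclotomic.dvd_X_pow_sub_one m ℝ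
  have h2 : ∏ j ∈ t, cyclotomic j ℝ = cyclotomic m ℝ * ∏ j ∈ t \ {m}, cyclotomic j ℝ := by
    rw [Finset.sdiff_singleton_eq_erase]
    exact (Finset.mul_prod_erase t (fun j => cyclotomic j ℝ) hm).symm
  rw [h2]
  show _ ∣ (X ^ m - 1) * (μ m * ∏ j ∈ t \ {m}, cyclotomic j ℝ)
  exact mul_dvd_mul h1 (dvd_mul_left _ _)

theorem exists_partition (r : ℕ) (hr : 0 < r) : ∃ e : ℕ → ℝ[X], (∑ m ∈ MM r, e m = 1) ∧
    ∀ m ∈ MM r, Psi r ℝ ∣ (X ^ m - 1) * e m :=
  exists_partition' (MM r) ⟨1, mem_MM.2 ⟨by norm_num, by simp; omega⟩⟩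

/-- functions on `ℕ^κ` with periods from `MM r` -/
def periodicSet (κ : Type*) [DecidableEq κ] (r : ℕ) : Set ((κ → ℕ) → ℝ) :=
  {h | ∃ μ : κ → ℕ, ∀ i, μ i ∈ MM r ∧ ∀ z n, line h z i (n + μ i) = line h z i n}

theorem mem_span_periodic {r : ℕ} (hr : 0 < r) {g : (κ → ℕ) → ℝ}
    (hg : ∀ i z, T (Psi r ℝ) (line g z i) = 0) :
    g ∈ Submodule.span ℝ (periodicSet κ r) := by
  classical
  obtain ⟨e, he1, he2⟩ := exists_partition r hr
  let G : Finset κ → Set ((κ → ℕ) → ℝ) := fun P =>
    {h | ∃ μ : κ → ℕ, (∀ i ∈ P, μ i ∈ MM r ∧ ∀ z n, line h z i (n + μ i) = line h z i n) ∧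
      ∀ i, i ∉ P → ∀ z, T (Psi r ℝ) (line h z i) = 0}
  have key : ∀ P : Finset κ, g ∈ Submodule.span ℝ (G P) := by
    intro P
    induction P using Finset.induction_on with
    | empty => exact Submodule.subset_span ⟨fun _ => 0, by simp, fun i _ z => hg i z⟩
    | insert i₀ P hi₀ ih =>
      refine (Submodule.span_le.2 ?_ : Submodule.span ℝ (G P) ≤ _) ih
      rintro h ⟨μ, hμ1, hμ2⟩
      let hm : ℕ → (κ → ℕ) → ℝ := fun m z => T (e m) (line h z i₀) (z i₀)
      have hsum : h = ∑ m ∈ MM r, hm m := by
        funext z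
        rw [Finset.sum_apply]
        have : ∑ m ∈ MM r, hm m z = T (∑ m ∈ MM r, e m) (line h z i₀) (z i₀) := by
          simp only [hm, T, map_sum, LinearMap.sum_apply, Finset.sum_apply]
        rw [this, he1]
        simp [T, line_self]
      rw [hsum]
      refine Submodule.sum_mem _ fun m hmm => Submodule.subset_span ?_
      have hline0 : ∀ z, line (hm m) z i₀ = T (e m) (line h z i₀) := by
        intro z
        funext n
        show T (e m) (line h (Function.update z i₀ n) i₀) (Function.update z i₀ n i₀) = _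
        rw [Function.update_self, line_update]
      have hline : ∀ z i, i ≠ i₀ → line (hm m) z i
          = ∑ j ∈ Finset.range ((e m).natDegree + 1),
              (e m).coeff j • line h (Function.update z i₀ (z i₀ + j)) i := by
        intro z i hi
        funext n
        show T (e m) (line h (Function.update z i n) i₀) (Function.update z i n i₀) = _
        simp only [Finset.sum_apply, Pi.smul_apply, smul_eq_mul]
        rw [T_apply, Function.update_of_ne (Ne.symm hi)]
        refine Finset.sum_congr rfl fun j _ => ?_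
        show (e m).coeff j * h (Function.update (Function.update z i n) i₀ (z i₀ + j)) = _
        rw [Function.update_comm hi]
        rfl
      refine ⟨Function.update μ i₀ m, ?_, ?_⟩
      · intro i hi
        by_cases hii : i = i₀
        · subst hii
          rw [Function.update_self]
          refine ⟨hmm, fun z n => ?_⟩
          rw [hline0]
          have h1 : T ((X ^ m - 1) * e m) (line h z i) = 0 :=
            T_zero_of_dvd (he2 m hmm) (hμ2 i hi₀ z)
          rw [T_mul] at h1
          have h2 := congrFun h1 n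
          rw [T_X_pow_sub_one] at h2
          exact sub_eq_zero.1 h2
        · rw [Function.update_of_ne hii]
          have hiP : i ∈ P := by simpa [hii] using hi
          refine ⟨(hμ1 i hiP).1, fun z n => ?_⟩
          rw [hline z i hii, Finset.sum_apply, Finset.sum_apply]
          refine Finset.sum_congr rfl fun j _ => ?_
          rw [Pi.smul_apply, Pi.smul_apply, (hμ1 i hiP).2]
      · intro i hi z
        have hii : i ≠ i₀ := fun h => hi (by simp [h])
        have hiP : i ∉ P := fun h => hi (by simp [h])
        rw [hline z i hii, map_sum]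
        refine Finset.sum_eq_zero fun j _ => ?_
        rw [map_smul, hμ2 i hiP, smul_zero]
  have := key Finset.univ
  refine Submodule.span_mono ?_ this
  rintro h ⟨μ, hμ, _⟩
  exact ⟨μ, fun i => hμ i (by simp)⟩

theorem periodic_congr {h : (κ → ℕ) → ℝ} {μ : κ → ℕ}
    (hμ : ∀ i z n, line h z i (n + μ i) = line h z i n) {z z' : κ → ℕ}
    (hz : ∀ i, z i % μ i = z' i % μ i) : h z = h z' := by
  classical
  have key : ∀ (z : κ → ℕ) (P : Finset κ), h z = h (fun i => if i ∈ P then z i % μ i else z i) := by
    intro z P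
    induction P using Finset.induction_on with
    | empty => simp
    | insert i₀ P hi₀ ih =>
      rw [ih]
      set y : κ → ℕ := fun i => if i ∈ P then z i % μ i else z i with hy
      have h1 : (fun i => if i ∈ insert i₀ P then z i % μ i else z i)
          = Function.update y i₀ (y i₀ % μ i₀) := by
        funext i
        by_cases hi : i = i₀
        · subst hi; simp [hy, hi₀]
        · simp [hy, hi]
      rw [h1]
      have hper : Function.Periodic (line h y i₀) (μ i₀) := fun n => hμ i₀ y n
      have h2 := hper.map_mod_nat (y i₀)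
      have h3 : line h y i₀ (y i₀) = h y := line_self h y i₀
      rw [← h3, ← h2]
      rfl
  rw [key z Finset.univ, key z' Finset.univ]
  congr 1
  funext i
  simp [hz i]

end Pool.Agent.Lib_helper10.LogRank
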