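import Mathlib
import Pool.Agent.Lib_helper10.LogRank.Multi

set_option autoImplicit false
set_option linter.unusedSectionVars false

/-! Chinese remaindering: periodic functions as low-degree functions on a product. -/

namespace Pool.Agent.Lib_helper10.LogRank

open Finset Polynomial

/-- the primes `≤ 2r` -/
abbrev PP (r : ℕ) : Type := {p : ℕ // p ∈ (Finset.range (2 * r + 1)).filter Nat.Prime}

/-- exponent of the prime -/
def EE (r p : ℕ) : ℕ := Nat.log p (2 * r)

/-- the modulus attached to a prime -/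
def QQ (r : ℕ) (p : PP r) : ℕ := p.1 ^ EE r p.1

theorem PP.prime {r : ℕ} (p : PP r) : p.1.Prime := (Finset.mem_filter.1 p.2).2

theorem PP.le {r : ℕ} (p : PP r) : p.1 ≤ 2 * r := by
  have := Finset.mem_range.1 (Finset.mem_filter.1 p.2).1
  omega

instance {r : ℕ} (p : PP r) : NeZero (QQ r p) := ⟨pow_ne_zero _ p.prime.ne_zero⟩

/-- the alphabet attached to a prime -/
abbrev AA (κ : Type*) (r : ℕ) (p : PP r) : Type _ := κ → ZMod (QQ r p)

theorem QQ_le {r : ℕ} (hr : 0 < r) (p : PP r) : QQ r p ≤ 2 * r :=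
  Nat.pow_log_le_self _ (by omega)

theorem card_PP {r : ℕ} : Fintype.card (PP r) ≤ 2 * r := by
  rw [Fintype.card_coe]
  calc ((Finset.range (2 * r + 1)).filter Nat.Prime).card
      ≤ ((Finset.Icc 1 (2 * r))).card := by
        refine Finset.card_le_card fun p hp => ?_
        simp only [mem_filter, mem_range, mem_Icc] at *
        have := hp.2.pos
        omega
    _ = 2 * r := by simp

theorem exists_crt (κ : Type*) (r : ℕ) : ∃ c : (∀ p : PP r, AA κ r p) → (κ → ℕ),
    ∀ u i p, ((c u i : ℕ) : ZMod (QQ r p)) = u p i := by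
  have hcop : Pairwise (Function.onFun Nat.Coprime (QQ r)) := by
    intro p q hpq
    exact Nat.Coprime.pow _ _ ((Nat.coprime_primes p.prime q.prime).2 fun h => hpq (Subtype.ext h))
  have hne : NeZero (∏ p : PP r, QQ r p) := ⟨Finset.prod_ne_zero_iff.2 fun p _ => NeZero.ne _⟩
  let e := ZMod.prodEquivPi (QQ r) hcop
  refine ⟨fun u i => (e.symm fun p => u p i).val, fun u i p => ?_⟩
  have h1 : e (((e.symm fun p => u p i).val : ℕ) : ZMod (∏ p : PP r, QQ r p)) = fun p => u p i := by
    rw [ZMod.natCast_zmod_val, RingEquiv.apply_symm_apply]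
  have h2 := congrFun h1 p
  rw [map_natCast] at h2
  simpa using h2

theorem mod_eq_of_crt {r m : ℕ} (hm : m ∈ MM r) {a b : ℕ}
    (h : ∀ p : PP r, p.1 ∣ m → (a : ZMod (QQ r p)) = (b : ZMod (QQ r p))) : a % m = b % m := by
  obtain ⟨hm0, hmr⟩ := mem_MM.1 hm
  have hr : 0 < r := lt_of_lt_of_le (Nat.totient_pos.2 hm0) hmr
  have : a ≡ b [MOD m] := by
    rw [Nat.modEq_iff_dvd, Int.natCast_dvd, Nat.dvd_iff_prime_pow_dvd_dvd]
    intro p k hp hk
    rcases Nat.eq_zero_or_pos k with h0 | hkpos
    · subst h0; simp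
    · have hpm : p ∣ m := (dvd_pow_self p (by omega)).trans hk
      have hpow : p ^ k ≤ 2 * r := prime_pow_le hm0 hmr hp hk
      have hple : p ≤ 2 * r := (Nat.le_self_pow (by omega) p).trans hpow
      let P : PP r := ⟨p, by simp only [mem_filter, mem_range]; exact ⟨by omega, hp⟩⟩
      have h1 := h P hpm
      rw [ZMod.natCast_eq_natCast_iff, Nat.modEq_iff_dvd, Int.natCast_dvd] at h1
      have hkE : k ≤ EE r p := Nat.le_log_of_pow_le hp.one_lt hpow
      exact (pow_dvd_pow p hkE).trans h1
  exact this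

variable {κ : Type*} [Fintype κ] [DecidableEq κ]

theorem lowDeg_of_periodic {r : ℕ} {c : (∀ p : PP r, AA κ r p) → (κ → ℕ)}
    (hc : ∀ u i p, ((c u i : ℕ) : ZMod (QQ r p)) = u p i) {g : (κ → ℕ) → ℝ}
    (hg : g ∈ Submodule.span ℝ (periodicSet κ r)) :
    (fun u => g (c u)) ∈ lowDeg (AA κ r) (Fintype.card κ * (Nat.log 2 r + 1)) := by
  classical
  refine Submodule.span_induction (p := fun g _ => (fun u => g (c u)) ∈
    lowDeg (AA κ r) (Fintype.card κ * (Nat.log 2 r + 1))) ?_ ?_ ?_ ?_ hg
  · rintro h ⟨μ, hμ⟩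
    let S : Finset (PP r) := Finset.univ.filter fun p => ∃ i, p.1 ∣ μ i
    have hS : S.card ≤ Fintype.card κ * (Nat.log 2 r + 1) := by
      have h1 : S.card = (S.map (Function.Embedding.subtype _)).card := (Finset.card_map _).symm
      rw [h1]
      calc (S.map (Function.Embedding.subtype _)).card
          ≤ ((Finset.univ : Finset κ).biUnion fun i => (μ i).primeFactors).card := by
            refine Finset.card_le_card fun p hp => ?_
            simp only [mem_map, Function.Embedding.subtype_apply] at hp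
            obtain ⟨q, hq, rfl⟩ := hp
            simp only [S, mem_filter, mem_univ, true_and] at hq
            obtain ⟨i, hi⟩ := hq
            simp only [mem_biUnion, mem_univ, true_and]
            exact ⟨i, Nat.mem_primeFactors.2 ⟨(Finset.mem_filter.1 q.2).2, hi, (mem_MM.1 (hμ i).1).1.ne'⟩⟩
        _ ≤ (Finset.univ : Finset κ).card * (Nat.log 2 r + 1) := by
            refine Finset.card_biUnion_le_card_mul _ _ _ fun i _ => ?_
            obtain ⟨h1, h2⟩ := mem_MM.1 (hμ i).1
            exact card_primeFactors_le h1 h2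
        _ = _ := by rw [Finset.card_univ]
    refine junta_le_lowDeg hS ?_
    intro u v huv
    refine periodic_congr (fun i => (hμ i).2) fun i => ?_
    refine mod_eq_of_crt (hμ i).1 fun p hp => ?_
    rw [hc, hc, huv p (by simp only [S, mem_filter, mem_univ, true_and]; exact ⟨i, hp⟩)]
  · exact Submodule.zero_mem _
  · intro a b _ _ ha hb
    exact Submodule.add_mem _ ha hb
  · intro t a _ ha
    exact Submodule.smul_mem _ t ha

theorem crt_eq_of_periodic {r : ℕ} {c : (∀ p : PP r, AA κ r p) → (κ → ℕ)}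
    (hc : ∀ u i p, ((c u i : ℕ) : ZMod (QQ r p)) = u p i) {g : (κ → ℕ) → ℝ}
    (hg : g ∈ Submodule.span ℝ (periodicSet κ r)) (z : κ → ℕ) :
    g (c fun p i => (z i : ZMod (QQ r p))) = g z := by
  classical
  refine Submodule.span_induction
    (p := fun g _ => g (c fun p i => (z i : ZMod (QQ r p))) = g z) ?_ ?_ ?_ ?_ hg
  · rintro h ⟨μ, hμ⟩
    refine periodic_congr (fun i => (hμ i).2) fun i => ?_
    refine mod_eq_of_crt (hμ i).1 fun p _ => ?_
    rw [hc]
  · rfl
  · intro a b _ _ ha hb
    simp only [Pi.add_apply, ha, hb]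
  · intro t a _ ha
    simp only [Pi.smul_apply, ha]

end Pool.Agent.Lib_helper10.LogRank
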