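import Mathlib
import Pool.Agent.Lib_helper10.LogRank.Crt
import Pool.Agent.Lib_helper10.LogRank.Proto

set_option autoImplicit false
set_option linter.unusedSectionVars false

/-! The main protocol. -/

namespace Pool.Agent.Lib_helper10.LogRank

open Finset Polynomial

theorem T_Psi_const {r : ℕ} (hr : 0 < r) (c : ℝ) : T (Psi r ℝ) (fun _ => c) = 0 := by
  have h1 : (X - 1 : ℝ[X]) ∣ Psi r ℝ := by
    unfold Psi
    have := Finset.dvd_prod_of_mem (fun m => cyclotomic m ℝ)
      (mem_MM.2 ⟨by norm_num, by simp; omega⟩ : 1 ∈ MM r)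
    rwa [cyclotomic_one] at this
  refine T_zero_of_dvd h1 ?_
  funext n
  have := T_X_pow_sub_one (K := ℝ) 1 (fun _ => c) n
  rw [pow_one] at this
  rw [this]; simp

theorem realRank_comp_le {X Y X' Y' : Type} [Fintype Y] [Fintype Y'] (F : X → Y → Bool)
    (a : X' → X) (b : Y' → Y) : realRank (fun x y => F (a x) (b y)) ≤ realRank F :=
  Matrix.rank_submatrix_le (Matrix.of fun (x : X) (y : Y) => if F x y then (1 : ℝ) else 0) a b

/-- the size threshold -/
def RR (r : ℕ) : ℕ := 5 * r ^ 6

theorem RR_facts {r N : ℕ} (hr : 0 < r) (hN : RR r ≤ N) :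
    r < N ∧ r ^ 2 + 3 * r + 1 ≤ 2 * N ∧
      (Psi r ℝ).natDegree ^ 2 + (Psi r ℝ).natDegree ≤ 2 * N - 1 - 2 * r := by
  unfold RR at hN
  have hD := Psi_natDegree r ℝ
  set D := (Psi r ℝ).natDegree
  have h0 : D ^ 2 ≤ (2 * r ^ 3) ^ 2 := Nat.pow_le_pow_left hD 2
  have e1 : (2 * r ^ 3) ^ 2 = 4 * r ^ 6 := by ring
  have h1 : 1 ≤ r ^ 5 := Nat.one_le_pow _ _ hr
  have h2 : r ≤ r ^ 6 := by calc r = r * 1 := by ring
                             _ ≤ r * r ^ 5 := Nat.mul_le_mul_left _ h1
                             _ = r ^ 6 := by ring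
  have h3 : r ^ 2 ≤ r ^ 6 := Nat.pow_le_pow_right hr (by norm_num)
  have h4 : r ^ 3 ≤ r ^ 6 := Nat.pow_le_pow_right hr (by norm_num)
  have h5 : 1 ≤ r ^ 6 := Nat.one_le_pow _ _ hr
  generalize r ^ 6 = A at *
  generalize r ^ 3 = B at *
  generalize r ^ 2 = C at *
  generalize D ^ 2 = E at *
  refine ⟨by omega, by omega, by omega⟩

variable {k : ℕ} {N : Fin k → ℕ} {Q : Type}

/-- regular coordinates of Alice -/
def reg (N : Fin k → ℕ) (r : ℕ) (x : ∀ i, Fin (N i)) (i : Fin k) : Prop :=
  RR r ≤ N i ∧ r ≤ x i ∧ x i + r < N i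

instance (N : Fin k → ℕ) (r : ℕ) (x : ∀ i, Fin (N i)) (i : Fin k) : Decidable (reg N r x i) := by
  unfold reg; infer_instance

/-- what Alice announces about her coordinate `i` -/
def code (N : Fin k → ℕ) (r : ℕ) (x : ∀ i, Fin (N i)) (i : Fin k) : ℕ :=
  if reg N r x i then 0 else if (x i : ℕ) < RR r then 1 + x i else RR r + 1 + (N i - 1 - x i)

theorem r_le_RR {r : ℕ} (hr : 0 < r) : r ≤ RR r := by
  have := Nat.pow_le_pow_right hr (show 1 ≤ 6 by norm_num)
  unfold RR; simp at this; omega

theorem code_lt {r : ℕ} (hr : 0 < r) (x : ∀ i, Fin (N i)) (i : Fin k) :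
    code N r x i < 2 * RR r + 1 := by
  have hx := (x i).2
  have hR := r_le_RR hr
  unfold code
  split_ifs with h1 h2
  · omega
  · omega
  · unfold reg at h1
    omega

theorem code_eq_zero {r : ℕ} (x : ∀ i, Fin (N i)) (i : Fin k) :
    code N r x i = 0 ↔ reg N r x i := by
  unfold code
  split_ifs with h1 h2
  · simp [h1]
  · simp [h1]
  · simp [h1]

theorem code_inj {r : ℕ} (x x' : ∀ i, Fin (N i)) (i : Fin k)
    (h : code N r x i = code N r x' i) (h0 : code N r x' i ≠ 0) : (x i : ℕ) = x' i := by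
  have hx := (x i).2
  have hx' := (x' i).2
  unfold code at h h0
  split_ifs at h h0 <;> omega

theorem main_cc [Fintype Q] (f : Q → (Fin k → ℕ) → Bool) {r : ℕ} (hr : 0 < r)
    (hrank : realRank (fun (x : ∀ i, Fin (N i)) (y : Q × ∀ i, Fin (N i)) =>
      f y.1 (fun i => (x i : ℕ) + y.2 i)) ≤ r) :
    CCOn (fun _ _ => True) (fun (x : ∀ i, Fin (N i)) (y : Q × ∀ i, Fin (N i)) =>
      f y.1 (fun i => (x i : ℕ) + y.2 i))
      ((k * (Nat.log 2 r + 1)) ^ 4 * ((Nat.log 2 r + 2) + k * (Nat.log 2 r + 2)) + 1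
        + k * (10 + 6 * Nat.log 2 r)) := by
  classical
  set ℓ := Nat.log 2 r with hℓ
  have hrℓ : r < 2 ^ (ℓ + 1) := Nat.lt_pow_succ_log_self (by norm_num) r
  have h2r : 2 * r ≤ 2 ^ (ℓ + 2) := by
    rw [pow_succ]; omega
  have hcardL : Fintype.card (Fin k → Fin (2 * RR r + 1)) ≤ 2 ^ (k * (10 + 6 * ℓ)) := by
    rw [Fintype.card_fun, Fintype.card_fin, Fintype.card_fin, mul_comm k, pow_mul]
    refine Nat.pow_le_pow_left ?_ k
    have h1 : r ^ 6 ≤ (2 ^ (ℓ + 1)) ^ 6 := Nat.pow_le_pow_left hrℓ.le 6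
    have h2 : 1 ≤ r ^ 6 := Nat.one_le_pow _ _ hr
    calc 2 * RR r + 1 ≤ 16 * r ^ 6 := by unfold RR; omega
      _ ≤ 16 * (2 ^ (ℓ + 1)) ^ 6 := by omega
      _ = 2 ^ (10 + 6 * ℓ) := by rw [← pow_mul]; ring
  refine sendA (fun x i => (⟨code N r x i, code_lt hr x i⟩ : Fin (2 * RR r + 1))) hcardL fun l => ?_
  by_cases hx₀ : ∃ x₀ : ∀ i, Fin (N i), ∀ i, code N r x₀ i = l i
  swap
  · refine ⟨Protocol.leaf true, Nat.zero_le _, fun x y hxy => absurd ⟨x, fun i => ?_⟩ hx₀⟩
    have := congrFun hxy.2 i
    exact congrArg Fin.val this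
  obtain ⟨x₀, hx₀⟩ := hx₀
  have hcodex : ∀ x : (∀ i, Fin (N i)),
      (True ∧ (fun i => (⟨code N r x i, code_lt hr x i⟩ : Fin (2 * RR r + 1))) = l) →
      (∀ i, (l i : ℕ) = 0 → reg N r x i) ∧
      (∀ i, (l i : ℕ) ≠ 0 → (x i : ℕ) = x₀ i) := by
    intro x hxy
    have hc : ∀ i, code N r x i = l i := fun i => congrArg Fin.val (congrFun hxy.2 i)
    refine ⟨fun i hi => ?_, fun i hi => ?_⟩
    · rw [← code_eq_zero, hc, hi]
    · exact code_inj x x₀ i (by rw [hc, hx₀]) (by rw [hx₀]; exact hi)
  have hNreg : ∀ i, (l i : ℕ) = 0 → RR r ≤ N i := by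
    intro i hi
    have : reg N r x₀ i := by rw [← code_eq_zero, hx₀, hi]
    exact this.1
  -- Bob's function
  let D := (Psi r ℝ).natDegree
  let w : Fin k → ℕ := fun i => if (l i : ℕ) = 0 then 2 * N i - 1 - 2 * r else D ^ 2 + D
  let g : (Q × ∀ i, Fin (N i)) → (Fin k → ℕ) → ℝ := fun y z =>
    if f y.1 (fun i => if (l i : ℕ) = 0 then r + z i else x₀ i + y.2 i) then 1 else 0
  have hext : ∀ y, ∃ G : (Fin k → ℕ) → ℝ, (∀ z, G z = 0 ∨ G z = 1) ∧
      (∀ i z, T (Psi r ℝ) (line G z i) = 0) ∧ ∀ z, (∀ i, z i < w i) → G z = g y z := by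
    intro y
    refine extension (Psi_monic r ℝ) ?_ ?_ ?_
    · intro i
      simp only [w]
      split_ifs with h
      · exact (RR_facts hr (hNreg i h)).2.2
      · exact le_rfl
    · intro z _
      simp only [g]
      split_ifs <;> simp
    · intro i z hz n hn
      by_cases hi : (l i : ℕ) = 0
      · -- Hankel direction
        let Z : Fin k → ℕ := fun j => if (l j : ℕ) = 0 then r + z j else x₀ j + y.2 j
        let s : ℕ → Bool := fun m => f y.1 (Function.update Z i m)
        have hline : line (g y) z i = fun n => if s (r + n) then (1 : ℝ) else 0 := by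
          funext m
          simp only [line, g, s]
          congr 3
          funext j
          by_cases hj : j = i
          · subst hj; simp [hi]
          · simp [hj, Z]
        obtain ⟨hf1, hf2, hf3⟩ := RR_facts hr (hNreg i hi)
        have hZ : ∀ j, j ≠ i → Z j ≤ 2 * (N j - 1) := by
          intro j hj
          have := hz j hj
          have hy := (y.2 j).2
          have hx := (x₀ j).2
          simp only [w, Z] at *
          split_ifs at * with hj0
          · omega
          · omega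
        have hNpos : ∀ j, 0 < N j := fun j => lt_of_le_of_lt (Nat.zero_le _) (x₀ j).2
        let a : Fin (N i) → ∀ j, Fin (N j) := fun t =>
          Function.update (fun j => (⟨min (Z j) (N j - 1), by have := hNpos j; omega⟩ : Fin (N j))) i t
        let b : Fin (N i) → ∀ j, Fin (N j) := fun t =>
          Function.update (fun j => (⟨min (Z j - min (Z j) (N j - 1)) (N j - 1),
            by have := hNpos j; omega⟩ : Fin (N j))) i t
        have hrank' : (Matrix.of fun (t u : Fin (N i)) =>
            if s (t + u) then (1 : ℝ) else 0).rank ≤ r := by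
          have h1 := realRank_comp_le (fun (x : ∀ i, Fin (N i)) (y : Q × ∀ i, Fin (N i)) =>
            f y.1 (fun i => (x i : ℕ) + y.2 i)) a (fun t => (y.1, b t))
          refine le_trans (le_of_eq ?_) (h1.trans hrank)
          unfold realRank
          congr 1
          ext t u
          have e0 : Function.update Z i ((t : ℕ) + u) = fun j => ((a t j : ℕ) + (b u j : ℕ)) := by
            funext j
            by_cases hj : j = i
            · subst hj; simp [a, b]
            · have := hZ j hj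
              simp only [a, b, Function.update_of_ne hj]
              omega
          have e1 : s (t + u) = f y.1 (fun j => ((a t j : ℕ) + (b u j : ℕ))) :=
            congrArg (f y.1) e0
          show (if s (t + u) then (1 : ℝ) else 0) =
            if f y.1 (fun j => ((a t j : ℕ) + (b u j : ℕ))) then 1 else 0
          rw [e1]
        have hwi : w i = 2 * N i - 1 - 2 * r := if_pos hi
        have := hankel_Psi hf1 hf2 hrank' n (by rw [← hwi]; exact hn)
        rw [hline]
        exact this
      · -- constant direction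
        have hline : line (g y) z i = fun _ => g y z := by
          funext m
          simp only [line, g]
          congr 3
          funext j
          by_cases hj : j = i
          · subst hj; simp [hi]
          · simp [hj]
        rw [hline, T_Psi_const hr]
        rfl
  choose G hG1 hG2 hG3 using hext
  obtain ⟨c, hc⟩ := exists_crt (Fin k) r
  have hGper : ∀ y, G y ∈ Submodule.span ℝ (periodicSet (Fin k) r) := fun y =>
    mem_span_periodic hr (hG2 y)
  let h : (Q × ∀ i, Fin (N i)) → (∀ p : PP r, AA (Fin k) r p) → Bool := fun y u =>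
    decide (G y (c u) = 1)
  have hdt : ∀ y, DTLe ((k * (ℓ + 1)) ^ 4) (h y) := by
    intro y
    refine dtle_of_lowDeg _ _ ?_
    have h1 := lowDeg_of_periodic hc (hGper y)
    rw [Fintype.card_fin] at h1
    convert h1 using 2 with u
    simp only [h, decide_eq_true_eq]
    rcases hG1 y (c u) with h0 | h0 <;> simp [h0]
  have hb1 : Fintype.card (PP r) ≤ 2 ^ (ℓ + 2) := card_PP.trans h2r
  have hb2 : ∀ p : PP r, Fintype.card (AA (Fin k) r p) ≤ 2 ^ (k * (ℓ + 2)) := by
    intro p
    rw [Fintype.card_fun, Fintype.card_fin, ZMod.card, mul_comm k, pow_mul]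
    exact Nat.pow_le_pow_left ((QQ_le hr p).trans h2r) k
  let α : (∀ i, Fin (N i)) → ∀ p : PP r, AA (Fin k) r p := fun x p i =>
    ((if (l i : ℕ) = 0 then (x i : ℕ) - r else 0 : ℕ) : ZMod (QQ r p))
  let β : (Q × ∀ i, Fin (N i)) → ∀ p : PP r, AA (Fin k) r p := fun y p i =>
    ((if (l i : ℕ) = 0 then (y.2 i : ℕ) else 0 : ℕ) : ZMod (QQ r p))
  refine (ccOn_of_dtle hb1 hb2 α β _ _ h hdt).congr fun x y hxy => ?_
  obtain ⟨hx1, hx2⟩ := hcodex x hxy
  let z : Fin k → ℕ := fun i => if (l i : ℕ) = 0 then (x i : ℕ) - r + y.2 i else 0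
  have hz : α x + β y = fun p i => (z i : ZMod (QQ r p)) := by
    funext p i
    simp only [α, β, z, Pi.add_apply]
    split_ifs <;> simp
  have hzw : ∀ i, z i < w i := by
    intro i
    simp only [z, w]
    split_ifs with hi
    · have h1 := hx1 i hi
      have h2 := (y.2 i).2
      unfold reg at h1
      omega
    · have hD1 : 0 < D := by
        have : Psi r ℝ ≠ 1 := by
          intro h1
          have h2 := T_Psi_const hr 1
          rw [h1] at h2
          have := congrFun h2 0
          simp [T] at this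
        have h3 : (Psi r ℝ).natDegree ≠ 0 := fun h0 => this ((Psi_monic r ℝ).natDegree_eq_zero.1 h0)
        exact Nat.pos_of_ne_zero h3
      positivity
  have he : (fun i => if (l i : ℕ) = 0 then r + z i else (x₀ i : ℕ) + y.2 i)
      = fun i => (x i : ℕ) + y.2 i := by
    funext i
    by_cases hi : (l i : ℕ) = 0
    · have h1 := hx1 i hi
      unfold reg at h1
      simp only [hi, if_true, z]
      omega
    · simp only [hi, if_false]
      rw [hx2 i hi]
  have he2 : g y z = if f y.1 (fun i => (x i : ℕ) + y.2 i) then 1 else 0 := by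
    show (if f y.1 (fun i => if (l i : ℕ) = 0 then r + z i else (x₀ i : ℕ) + y.2 i)
      then (1 : ℝ) else 0) = _
    rw [he]
  show decide (G y (c (α x + β y)) = 1) = f y.1 (fun i => (x i : ℕ) + y.2 i)
  rw [hz, crt_eq_of_periodic hc (hGper y), hG3 y z hzw, he2]
  cases hf : f y.1 (fun i => (x i : ℕ) + y.2 i) <;> simp

end Pool.Agent.Lib_helper10.LogRank
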