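import Mathlib
import Pool.Agent.Lib_helper10.LogRank.Main

set_option autoImplicit false
set_option linter.unusedSectionVars false

/-! Real-valued bound and transfer along surjections. -/

namespace Pool.Agent.Lib_helper10.LogRank

/-- transport of a protocol along maps of the inputs -/
def Protocol.pull {X Y X' Y' : Type} (s : X' → X) (t : Y' → Y) : Protocol X Y → Protocol X' Y'
  | leaf b => leaf b
  | alice q t₀ t₁ => alice (fun x => q (s x)) (t₀.pull s t) (t₁.pull s t)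
  | bob q t₀ t₁ => bob (fun y => q (t y)) (t₀.pull s t) (t₁.pull s t)

theorem Protocol.pull_cost {X Y X' Y' : Type} (s : X' → X) (t : Y' → Y) (π : Protocol X Y) :
    (π.pull s t).cost = π.cost := by
  induction π with
  | leaf b => rfl
  | alice q t₀ t₁ h₀ h₁ => simp [Protocol.pull, Protocol.cost, h₀, h₁]
  | bob q t₀ t₁ h₀ h₁ => simp [Protocol.pull, Protocol.cost, h₀, h₁]

theorem Protocol.pull_eval {X Y X' Y' : Type} (s : X' → X) (t : Y' → Y) (π : Protocol X Y)
    (x : X') (y : Y') : (π.pull s t).eval x y = π.eval (s x) (t y) := by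
  induction π with
  | leaf b => rfl
  | alice q t₀ t₁ h₀ h₁ => simp [Protocol.pull, Protocol.eval, h₀, h₁]
  | bob q t₀ t₁ h₀ h₁ => simp [Protocol.pull, Protocol.eval, h₀, h₁]

theorem cost_bound {k ℓ : ℕ} {lam : ℝ} (h : (ℓ : ℝ) + 1 ≤ lam) :
    (((k * (ℓ + 1)) ^ 4 * ((ℓ + 2) + k * (ℓ + 2)) + 1 + k * (10 + 6 * ℓ) : ℕ) : ℝ)
      ≤ 13 * ((k : ℝ) + 1) ^ 5 * lam ^ 5 := by
  push_cast
  have hk : (0 : ℝ) ≤ k := Nat.cast_nonneg k
  have hl : (0 : ℝ) ≤ ℓ := Nat.cast_nonneg ℓ
  set K : ℝ := (k : ℝ) + 1 with hK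
  have hK1 : 1 ≤ K := by linarith
  have hlam1 : 1 ≤ lam := by linarith
  have h1 : ((k : ℝ) * (ℓ + 1)) ^ 4 ≤ (K * lam) ^ 4 := by
    apply pow_le_pow_left₀ (by positivity)
    apply mul_le_mul (by linarith) h (by positivity) (by linarith)
  have h2 : ((ℓ : ℝ) + 2) + k * (ℓ + 2) ≤ K * (2 * lam) := by
    have : ((ℓ : ℝ) + 2) + k * (ℓ + 2) = K * (ℓ + 2) := by rw [hK]; ring
    rw [this]
    exact mul_le_mul_of_nonneg_left (by linarith) (by linarith)
  have h3 : ((k : ℝ) * (ℓ + 1)) ^ 4 * (((ℓ : ℝ) + 2) + k * (ℓ + 2))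
      ≤ (K * lam) ^ 4 * (K * (2 * lam)) :=
    mul_le_mul h1 h2 (by positivity) (by positivity)
  have h4 : (K * lam) ^ 4 * (K * (2 * lam)) = 2 * (K ^ 5 * lam ^ 5) := by ring
  have hK5 : K ≤ K ^ 5 := le_self_pow₀ hK1 (by norm_num)
  have hK51 : 1 ≤ K ^ 5 := one_le_pow₀ hK1
  have hl5 : lam ≤ lam ^ 5 := le_self_pow₀ hlam1 (by norm_num)
  have hl51 : 1 ≤ lam ^ 5 := one_le_pow₀ hlam1
  have h5 : (1 : ℝ) ≤ K ^ 5 * lam ^ 5 := by nlinarith
  have h6 : (k : ℝ) * (10 + 6 * ℓ) ≤ 10 * (K ^ 5 * lam ^ 5) := by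
    have h7 : (k : ℝ) * (10 + 6 * ℓ) ≤ K * (10 * lam) :=
      mul_le_mul (by linarith) (by linarith) (by positivity) (by linarith)
    have h8 : K * lam ≤ K ^ 5 * lam ^ 5 := mul_le_mul hK5 hl5 (by linarith) (by positivity)
    linarith
  have h9 : 13 * K ^ 5 * lam ^ 5 = 13 * (K ^ 5 * lam ^ 5) := by ring
  rw [h9]
  linarith [h3, h4.le, h5, h6]

/-- The log-rank bound for shift-structured Boolean matrices. -/
theorem logRank_shift (k : ℕ) (N : Fin k → ℕ) (X Y Q : Type) [Fintype X] [Fintype Y] [Fintype Q]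
    (a : (∀ i, Fin (N i)) → X) (b : Q × (∀ i, Fin (N i)) → Y)
    (ha : Function.Surjective a) (hb : Function.Surjective b)
    (F : X → Y → Bool) (f : Q → (Fin k → ℕ) → Bool)
    (hF : ∀ u t v, F (a u) (b (t, v)) = f t (fun i => (u i : ℕ) + v i))
    (hne : ∃ x y, F x y = true) :
    ∃ π : Protocol X Y, (∀ x y, π.eval x y = F x y) ∧
      (π.cost : ℝ) ≤ 13 * ((k : ℝ) + 1) ^ 5 * (1 + Real.logb 2 (realRank F)) ^ 5 := by
  classical
  set r := realRank F with hr
  have hr0 : 0 < r := by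
    rcases Nat.eq_zero_or_pos r with h | h
    · exfalso
      obtain ⟨x, y, hxy⟩ := hne
      have h1 := realRank_comp_le F (fun _ : Fin 1 => x) (fun _ : Fin 1 => y)
      rw [← hr, h] at h1
      have h2 : realRank (fun _ _ : Fin 1 => F x y) = 1 := by
        unfold realRank
        rw [hxy]
        have : (Matrix.of fun (_ : Fin 1) (_ : Fin 1) => if true = true then (1 : ℝ) else 0)
            = (1 : Matrix (Fin 1) (Fin 1) ℝ) := by
          ext i j
          have : i = j := Subsingleton.elim _ _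
          subst this
          simp
        rw [this, Matrix.rank_one]
        simp
      rw [h2] at h1
      omega
    · exact h
  have hrank : realRank (fun (x : ∀ i, Fin (N i)) (y : Q × ∀ i, Fin (N i)) =>
      f y.1 (fun i => (x i : ℕ) + y.2 i)) ≤ r := by
    have h1 := realRank_comp_le F a b
    refine le_trans (le_of_eq ?_) h1
    congr 1
    funext x y
    exact (hF x y.1 y.2).symm
  obtain ⟨π, hπ1, hπ2⟩ := main_cc (N := N) f hr0 hrank
  refine ⟨π.pull (Function.surjInv ha) (Function.surjInv hb), fun x y => ?_, ?_⟩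
  · rw [Protocol.pull_eval, hπ2 _ _ trivial]
    have h1 := hF (Function.surjInv ha x) (Function.surjInv hb y).1 (Function.surjInv hb y).2
    rw [Prod.mk.eta, Function.surjInv_eq ha, Function.surjInv_eq hb] at h1
    exact h1.symm
  · rw [Protocol.pull_cost]
    refine le_trans (Nat.cast_le.2 hπ1) ?_
    refine cost_bound ?_
    have h1 : (2 : ℝ) ^ (Nat.log 2 r) ≤ r := by
      exact_mod_cast Nat.pow_log_le_self 2 hr0.ne'
    have h2 : (Nat.log 2 r : ℝ) ≤ Real.logb 2 r := by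
      rw [Real.le_logb_iff_rpow_le (by norm_num) (by exact_mod_cast hr0)]
      rw [Real.rpow_natCast]
      exact h1
    linarith

end Pool.Agent.Lib_helper10.LogRank
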